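import Pool.Agent.Lib.MP_0d9be2_nt.Defs

/-!
# Integral models and minimal models (PART 3.3 and 3b)
-/

set_option autoImplicit false

open scoped NumberField
open IsDedekindDomain

namespace Pool.Agent.MP_0d9be2.H7

open Pool.Agent.MP_0d9be2

variable {K : Type} [Field K] [NumberField K]

theorem isModel_of_smul {E : WeierstrassCurve K} {W : WeierstrassCurve (𝓞 K)}
    (C : WeierstrassCurve.VariableChange K) (h : W.map (algebraMap (𝓞 K) K) = C • E) :
    IsModel E W := ⟨C⁻¹, by rw [h, inv_smul_smul]⟩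

/-- Integral models exist. -/
theorem exists_model (E : WeierstrassCurve K) : ∃ W : WeierstrassCurve (𝓞 K), IsModel E W := by
  classical
  obtain ⟨b, hb⟩ := IsLocalization.exist_integer_multiples_of_finset (nonZeroDivisors (𝓞 K))
    ({E.a₁, E.a₂, E.a₃, E.a₄, E.a₆} : Finset K)
  have hb0 : algebraMap (𝓞 K) K b ≠ 0 :=
    IsFractionRing.to_map_ne_zero_of_mem_nonZeroDivisors b.2
  have key : ∀ a ∈ ({E.a₁, E.a₂, E.a₃, E.a₄, E.a₆} : Finset K), ∀ n : ℕ, n ≠ 0 →
      ∃ c : 𝓞 K, algebraMap (𝓞 K) K c = (algebraMap (𝓞 K) K b) ^ n * a := by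
    intro a ha n hn
    obtain ⟨c, hc⟩ := hb a ha
    obtain ⟨m, rfl⟩ := Nat.exists_eq_succ_of_ne_zero hn
    refine ⟨b ^ m * c, ?_⟩
    rw [map_mul, hc, map_pow, Algebra.smul_def, pow_succ]
    ring
  obtain ⟨c₁, h₁⟩ := key E.a₁ (by simp) 1 one_ne_zero
  obtain ⟨c₂, h₂⟩ := key E.a₂ (by simp) 2 two_ne_zero
  obtain ⟨c₃, h₃⟩ := key E.a₃ (by simp) 3 three_ne_zero
  obtain ⟨c₄, h₄⟩ := key E.a₄ (by simp) 4 four_ne_zero
  obtain ⟨c₆, h₆⟩ := key E.a₆ (by simp) 6 (by norm_num)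
  refine ⟨⟨c₁, c₂, c₃, c₄, c₆⟩, isModel_of_smul ⟨(Units.mk0 _ hb0)⁻¹, 0, 0, 0⟩ ?_⟩
  ext
  · simp [WeierstrassCurve.variableChange_def, h₁]
  · simp [WeierstrassCurve.variableChange_def, h₂]
  · simp [WeierstrassCurve.variableChange_def, h₃]
  · simp [WeierstrassCurve.variableChange_def, h₄]
  · simp [WeierstrassCurve.variableChange_def, h₆]

/-- The discriminant of a model of an elliptic curve is not zero. -/
theorem model_disc_ne_zero {E : WeierstrassCurve K} [E.IsElliptic] {W : WeierstrassCurve (𝓞 K)}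
    (h : IsModel E W) : W.Δ ≠ 0 := by
  obtain ⟨C, hC⟩ := h
  intro h0
  have h1 : E.Δ = 0 := by
    rw [← hC, WeierstrassCurve.variableChange_Δ, WeierstrassCurve.map_Δ, h0, map_zero, mul_zero]
  exact E.isUnit_Δ.ne_zero h1

/-- A nonzero element lies in only finitely many powers of a prime. -/
theorem exists_not_mem_pow {x : 𝓞 K} (hx : x ≠ 0) (p : HeightOneSpectrum (𝓞 K)) :
    ∃ n : ℕ, x ∉ p.asIdeal ^ n := by
  by_contra hcon
  push Not at hcon
  have h1 : x ∈ (⨅ n : ℕ, p.asIdeal ^ n) := by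
    rw [Ideal.mem_iInf]
    exact hcon
  rw [Ideal.iInf_pow_eq_bot_of_isDomain _ p.isPrime.ne_top] at h1
  exact hx h1

/-- Models that are minimal at a given prime exist. -/
theorem minimal : Minimal_S := by
  intro K _ _ E _ p
  classical
  have hex : ∃ n : ℕ, ∃ W : WeierstrassCurve (𝓞 K), IsModel E W ∧ W.Δ ∉ p.asIdeal ^ (n + 1) := by
    obtain ⟨W, hW⟩ := exists_model E
    obtain ⟨n, hn⟩ := exists_not_mem_pow (model_disc_ne_zero hW) p
    exact ⟨n, W, hW, fun h => hn (Ideal.pow_le_pow_right (Nat.le_succ n) h)⟩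
  obtain ⟨W, hW, hWn⟩ := Nat.find_spec hex
  refine ⟨W, hW, fun W' hW' n hn => ?_⟩
  have h1 : n ≤ Nat.find hex := by
    by_contra hlt
    exact hWn (Ideal.pow_le_pow_right (by omega) hn)
  refine Ideal.pow_le_pow_right h1 ?_
  by_contra h2
  rcases Nat.eq_zero_or_pos (Nat.find hex) with h3 | h3
  · rw [h3, pow_zero, Ideal.one_eq_top] at h2
    exact h2 trivial
  · have h4 : Nat.find hex - 1 < Nat.find hex := by omega
    refine Nat.find_min hex h4 ⟨W', hW', ?_⟩
    rw [Nat.sub_add_cancel h3]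
    exact h2

/-- The primes dividing a nonzero integer form a finite set. -/
theorem finite_dvd {x : 𝓞 K} (hx : x ≠ 0) :
    {p : HeightOneSpectrum (𝓞 K) | x ∈ p.asIdeal}.Finite := by
  have h := Ideal.finite_factors (I := Ideal.span {x}) (by simpa using hx)
  refine h.subset fun p hp => ?_
  simp only [Set.mem_ofPred_eq] at hp ⊢
  rw [Ideal.dvd_span_singleton]
  exact hp

end Pool.Agent.MP_0d9be2.H7
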