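import Pool.Agent.Lib.MP_0d9be2_nt.Defs

/-!
# PART 3 of council 27: statement 3.1

Two integral models whose discriminants are units at `w` have the same number of affine points
modulo `w`.
-/

set_option autoImplicit false

open scoped NumberField
open IsDedekindDomain

namespace Pool.Agent.MP_0d9be2

/-- PART 3.1. -/
def Change_S : Prop :=
  ∀ (F : Type) [Field F] [NumberField F] (E : WeierstrassCurve F) [E.IsElliptic]
    (W W' : WeierstrassCurve (𝓞 F)) (w : HeightOneSpectrum (𝓞 F)),
    IsModel E W → IsModel E W' → W.Δ ∉ w.asIdeal → W'.Δ ∉ w.asIdeal → affPts W w = affPts W' w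

end Pool.Agent.MP_0d9be2
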