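import Mathlib

/-!
# Decomposition groups in Kummer extensions of exponent `l` (part B4 of Theorem S)

`C/A` an extension of Dedekind domains with a finite group `G` acting on `C` over `A`, `A` contains
the `l`-th roots of unity, and `G` acts faithfully on a family `b i` with `(b i) ^ l = c i` in `A`,
`c i` congruent to `1` modulo `l ^ (l + 1)`. Then every decomposition group has at most `l ^ 2`
elements.
-/

set_option autoImplicit false

open IsDedekindDomain WithZero
open scoped Pointwise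

namespace Pool.Agent.MP_0d9be2.H7.B4

section basic

variable {C : Type} [CommRing C] [IsDedekindDomain C]
variable {G : Type} [Group G] [MulSemiringAction G C]
variable (v : HeightOneSpectrum C)

theorem exists_val {x : C} (hx : x ≠ 0) :
    ∃ n : ℕ, x ∈ v.asIdeal ^ n ∧ x ∉ v.asIdeal ^ (n + 1) := by
  classical
  have hex : ∃ n : ℕ, x ∉ v.asIdeal ^ (n + 1) := by
    by_contra hcon
    push Not at hcon
    have h1 : x ∈ (⨅ n : ℕ, v.asIdeal ^ n) := by
      rw [Ideal.mem_iInf]
      intro n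
      exact Ideal.pow_le_pow_right (Nat.le_succ n) (hcon n)
    rw [Ideal.iInf_pow_eq_bot_of_isDomain _ v.isPrime.ne_top] at h1
    exact hx h1
  refine ⟨Nat.find hex, ?_, Nat.find_spec hex⟩
  rcases Nat.eq_zero_or_pos (Nat.find hex) with h0 | h0
  · rw [h0, pow_zero, Ideal.one_eq_top]
    trivial
  · have h1 := Nat.find_min hex (m := Nat.find hex - 1) (by omega)
    rw [not_not, Nat.sub_add_cancel h0] at h1
    exact h1

theorem mem_pow_of_mul {x y : C} {n : ℕ} (hx : x ∉ v.asIdeal) (h : x * y ∈ v.asIdeal ^ n) :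
    y ∈ v.asIdeal ^ n :=
  (Ideal.IsPrime.mul_mem_pow v.asIdeal h).resolve_left hx

omit [IsDedekindDomain C] in
theorem smul_mem_pow {g : G} (hg : g • v.asIdeal = v.asIdeal) {x : C} {n : ℕ}
    (hx : x ∈ v.asIdeal ^ n) : g • x ∈ v.asIdeal ^ n := by
  have h1 : g • x ∈ g • (v.asIdeal ^ n) := Ideal.smul_mem_pointwise_smul g x _ hx
  rwa [smul_pow', hg] at h1

/-- A uniformizer. -/
theorem exists_unif : ∃ π : C, π ∈ v.asIdeal ∧ π ∉ v.asIdeal ^ 2 := by
  by_contra hcon
  push Not at hcon
  have h1 : v.asIdeal ≤ v.asIdeal ^ 2 := hcon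
  have h2 : v.asIdeal ^ 2 < v.asIdeal ^ 1 := Ideal.pow_right_strictAnti v.asIdeal v.ne_bot
    v.isPrime.ne_top (by norm_num)
  rw [pow_one] at h2
  exact absurd h1 (not_le_of_gt h2)

theorem unif_pow {π : C} (h1 : π ∈ v.asIdeal) (h2 : π ∉ v.asIdeal ^ 2) (n : ℕ) :
    π ^ n ∈ v.asIdeal ^ n ∧ π ^ n ∉ v.asIdeal ^ (n + 1) := by
  refine ⟨Ideal.pow_mem_pow h1 n, ?_⟩
  intro h
  have hv : v.intValuation π = exp (-(1 : ℤ)) := by
    apply le_antisymm
    · have := (v.intValuation_le_pow_iff_mem π 1).2 (by rwa [pow_one])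
      simpa using this
    · by_contra hlt
      push Not at hlt
      apply h2
      rw [← v.intValuation_le_pow_iff_mem]
      have hne : v.intValuation π ≠ 0 := by
        apply v.intValuation_ne_zero
        rintro rfl
        exact h2 (Ideal.zero_mem _)
      obtain ⟨m, hm⟩ : ∃ m : ℤ, v.intValuation π = exp m := ⟨log (v.intValuation π), (exp_log hne).symm⟩
      rw [hm, exp_lt_exp] at hlt
      rw [hm, exp_le_exp]
      push_cast
      omega
  have h3 := (v.intValuation_le_pow_iff_mem (π ^ n) (n + 1)).2 h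
  rw [map_pow, hv, ← exp_nsmul, exp_le_exp] at h3
  push_cast at h3
  simp at h3

/-- An inertia element that fixes a uniformizer to second order moves nothing to first order. -/
theorem smul_sub_mem {π : C} (h1 : π ∈ v.asIdeal) (h2 : π ∉ v.asIdeal ^ 2) {g : G}
    (hg : g • v.asIdeal = v.asIdeal) (hI : ∀ x : C, g • x - x ∈ v.asIdeal)
    (hπ : g • π - π ∈ v.asIdeal ^ 2) {b : C} {n : ℕ} (hb : b ∈ v.asIdeal ^ n) :
    g • b - b ∈ v.asIdeal ^ (n + 1) := by
  have hpow : ∀ m : ℕ, (g • π) ^ m - π ^ m ∈ v.asIdeal ^ (m + 1) := by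
    intro m
    induction m with
    | zero => simp
    | succ m ih =>
      have h3 : (g • π) ^ (m + 1) - π ^ (m + 1) =
          (g • π) * ((g • π) ^ m - π ^ m) + (g • π - π) * π ^ m := by ring
      rw [h3]
      refine Ideal.add_mem _ ?_ ?_
      · have h4 : g • π ∈ v.asIdeal := by
          have := smul_mem_pow v hg (n := 1) (x := π) (by rwa [pow_one])
          rwa [pow_one] at this
        have h5 := Ideal.mul_mem_mul h4 ih
        rwa [← pow_succ'] at h5
      · have h5 := Ideal.mul_mem_mul hπ (Ideal.pow_mem_pow h1 m)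
        rw [← pow_add] at h5
        rwa [show m + 1 + 1 = 2 + m by omega]
  obtain ⟨hm, hnm⟩ := unif_pow v h1 h2 n
  obtain ⟨u, e, he, rfl⟩ := Ideal.exists_mul_add_mem_pow_succ v.ne_bot (π ^ n) b hm hnm hb
  have h3 : g • (π ^ n * u + e) - (π ^ n * u + e) =
      ((g • π) ^ n - π ^ n) * (g • u) + π ^ n * (g • u - u) + (g • e - e) := by
    rw [smul_add, smul_mul', smul_pow']
    ring
  rw [h3]
  refine Ideal.add_mem _ (Ideal.add_mem _ ?_ ?_) ?_
  · exact Ideal.mul_mem_right _ _ (hpow n)
  · have h5 := Ideal.mul_mem_mul hm (hI u)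
    rwa [← pow_succ] at h5
  · exact Ideal.sub_mem _ (smul_mem_pow v hg he) he

end basic

section kummer

variable {A C : Type} [CommRing A] [CommRing C] [IsDedekindDomain C] [Algebra A C]
variable {G : Type} [Group G] [MulSemiringAction G C] [SMulCommClass G A C]
variable {l : ℕ}

omit [IsDedekindDomain C] in
theorem root_of_pow_eq [IsDomain C] (hl : l.Prime) {ζ : A}
    (hζ : IsPrimitiveRoot (algebraMap A C ζ) l) {x y : C} (h : x ^ l = y ^ l) :
    ∃ k : ℕ, x = (algebraMap A C (ζ ^ k)) * y := by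
  have h0 : NeZero l := ⟨hl.ne_zero⟩
  have h1 : (∏ ξ ∈ Polynomial.nthRootsFinset l (1 : C), (x - ξ * y)) = 0 := by
    rw [← IsPrimitiveRoot.pow_sub_pow_eq_prod_sub_mul x y hl.pos hζ, h, sub_self]
  obtain ⟨ξ, hξ, hξ2⟩ := Finset.prod_eq_zero_iff.1 h1
  rw [Polynomial.mem_nthRootsFinset hl.pos] at hξ
  obtain ⟨k, -, hk⟩ := hζ.eq_pow_of_pow_eq_one hξ
  refine ⟨k, ?_⟩
  rw [map_pow, hk]
  exact sub_eq_zero.1 hξ2

omit [IsDedekindDomain C] in
/-- A root of unity minus one divides `l`. -/
theorem sub_one_dvd [IsDomain C] {ξ : C} (h : ξ ^ l = 1) (hne : ξ ≠ 1) : ξ - 1 ∣ (l : C) := by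
  have h1 : ∑ i ∈ Finset.range l, ξ ^ i = 0 := by
    have h2 := mul_geom_sum ξ l
    rw [h, sub_self] at h2
    exact (mul_eq_zero.1 h2).resolve_left (sub_ne_zero.2 hne)
  have h3 : (l : C) = ∑ i ∈ Finset.range l, (1 - ξ ^ i) := by
    rw [Finset.sum_sub_distrib, h1, sub_zero, Finset.sum_const, Finset.card_range, nsmul_one]
  rw [h3]
  refine Finset.dvd_sum fun i _ => ?_
  have h4 := sub_dvd_pow_sub_pow ξ 1 i
  rw [one_pow] at h4
  have h5 : 1 - ξ ^ i = -(ξ ^ i - 1) := by ring
  rw [h5]
  exact h4.neg_right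

omit [IsDedekindDomain C] in
theorem smul_map (g : G) (a : A) : g • (algebraMap A C a) = algebraMap A C a :=
  smul_algebraMap g a

/-- Every element acts on `b i` by a root of unity from `A`. -/
theorem exists_char (hl : l.Prime) {ζ : A} (hζ : IsPrimitiveRoot (algebraMap A C ζ) l)
    {b : C} {c : A} (hb : b ^ l = algebraMap A C c) (g : G) :
    ∃ a : A, (algebraMap A C a) ^ l = 1 ∧ g • b = algebraMap A C a * b := by
  have h1 : (g • b) ^ l = b ^ l := by rw [← smul_pow', hb, smul_map]
  obtain ⟨k, hk⟩ := root_of_pow_eq hl hζ h1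
  refine ⟨ζ ^ k, ?_, hk⟩
  rw [map_pow, ← pow_mul, mul_comm k l, pow_mul, hζ.pow_eq_one, one_pow]

theorem pow_smul_char {b : C} {a : A} {g : G} (h : g • b = algebraMap A C a * b) (m : ℕ) :
    g ^ m • b = (algebraMap A C a) ^ m * b := by
  induction m with
  | zero => simp
  | succ m ih =>
    rw [pow_succ', mul_smul, ih, smul_mul', smul_pow', smul_map, h]
    ring

/-- All elements have order dividing `l`. -/
theorem pow_eq_one (hl : l.Prime) {ζ : A} (hζ : IsPrimitiveRoot (algebraMap A C ζ) l)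
    {ι : Type} (b : ι → C) (c : ι → A) (hb : ∀ i, b i ^ l = algebraMap A C (c i))
    (hfaith : ∀ g : G, (∀ i, g • b i = b i) → g = 1) (g : G) : g ^ l = 1 := by
  apply hfaith
  intro i
  obtain ⟨a, ha, hg⟩ := exists_char hl hζ (hb i) g
  rw [pow_smul_char hg, ha, one_mul]

/-- The inertia group at a prime not over `l` has at most `l` elements. -/
theorem card_inertia_le (hl : l.Prime) {ζ : A} (hζ : IsPrimitiveRoot (algebraMap A C ζ) l)
    {ι : Type} (b : ι → C) (c : ι → A) (hb : ∀ i, b i ^ l = algebraMap A C (c i))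
    (hb0 : ∀ i, b i ≠ 0) (hfaith : ∀ g : G, (∀ i, g • b i = b i) → g = 1)
    (v : HeightOneSpectrum C) (hlv : (l : C) ∉ v.asIdeal) :
    Nat.card (v.asIdeal.inertia G) ≤ l := by
  classical
  obtain ⟨π, hπ1, hπ2⟩ := exists_unif v
  have hmax : v.asIdeal.IsMaximal := v.isMaximal
  let iF : Field (C ⧸ v.asIdeal) := Ideal.Quotient.field v.asIdeal
  have hstab : ∀ g : G, g ∈ v.asIdeal.inertia G → g • v.asIdeal = v.asIdeal := fun g hg =>
    Ideal.inertia_le_stabilizer v.asIdeal hg
  -- the tame character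
  have hex : ∀ g : v.asIdeal.inertia G, ∃ t : C, (g : G) • π - t * π ∈ v.asIdeal ^ 2 := by
    intro g
    have h1 : (g : G) • π ∈ v.asIdeal ^ 1 := smul_mem_pow v (hstab g g.2) (by rwa [pow_one])
    obtain ⟨t, e, he, hte⟩ := Ideal.exists_mul_add_mem_pow_succ v.ne_bot π _
      (by rwa [pow_one]) hπ2 h1
    refine ⟨t, ?_⟩
    rw [← hte]
    have h2 : π * t + e - t * π = e := by ring
    rw [h2]
    exact he
  choose t ht using hex
  have hroot : ∀ g : v.asIdeal.inertia G, (Ideal.Quotient.mk v.asIdeal (t g)) ^ l = 1 := by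
    intro g
    have hm : ∀ m : ℕ, (g : G) ^ m • π - (t g) ^ m * π ∈ v.asIdeal ^ 2 := by
      intro m
      induction m with
      | zero => simp
      | succ m ih =>
        have h1 : (g : G) ^ (m + 1) • π - (t g) ^ (m + 1) * π =
            (g : G) • ((g : G) ^ m • π - (t g) ^ m * π) +
            ((g : G) • ((t g) ^ m) - (t g) ^ m) * ((g : G) • π) +
            (t g) ^ m * ((g : G) • π - t g * π) := by
          rw [smul_sub, smul_mul', pow_succ' (g : G), mul_smul]
          ring
        rw [h1]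
        refine Ideal.add_mem _ (Ideal.add_mem _ ?_ ?_) ?_
        · exact smul_mem_pow v (hstab g g.2) ih
        · have h2 : (g : G) • ((t g) ^ m) - (t g) ^ m ∈ v.asIdeal := g.2 _
          have h3 : (g : G) • π ∈ v.asIdeal := by
            have := smul_mem_pow v (hstab g g.2) (n := 1) (x := π) (by rwa [pow_one])
            rwa [pow_one] at this
          have h4 := Ideal.mul_mem_mul h2 h3
          rwa [← pow_two] at h4
        · exact Ideal.mul_mem_left _ _ (ht g)
    have h1 := hm l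
    rw [pow_eq_one hl hζ b c hb hfaith, one_smul] at h1
    have h2 : π - (t g) ^ l * π = (1 - (t g) ^ l) * π := by ring
    rw [h2] at h1
    have h3 : (1 - (t g) ^ l) ∈ v.asIdeal := by
      by_contra h4
      exact hπ2 (mem_pow_of_mul v h4 h1)
    rw [← map_pow, eq_comm, ← sub_eq_zero, ← map_one (Ideal.Quotient.mk v.asIdeal), ← map_sub,
      Ideal.Quotient.eq_zero_iff_mem]
    exact h3
  have hinj : ∀ g h : v.asIdeal.inertia G,
      Ideal.Quotient.mk v.asIdeal (t g) = Ideal.Quotient.mk v.asIdeal (t h) → g = h := by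
    intro g h hgh
    rw [Ideal.Quotient.eq] at hgh
    have h1 : (g : G) • π - (h : G) • π ∈ v.asIdeal ^ 2 := by
      have h2 : (g : G) • π - (h : G) • π =
          ((g : G) • π - t g * π) - ((h : G) • π - t h * π) + (t g - t h) * π := by ring
      rw [h2]
      refine Ideal.add_mem _ (Ideal.sub_mem _ (ht g) (ht h)) ?_
      have h3 := Ideal.mul_mem_mul hgh hπ1
      rwa [← pow_two] at h3
    have hk : (h⁻¹ * g : v.asIdeal.inertia G) = 1 := by
      set k := (h⁻¹ * g : v.asIdeal.inertia G) with hkdef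
      have hkπ : (k : G) • π - π ∈ v.asIdeal ^ 2 := by
        have h4 := smul_mem_pow v (hstab _ (h⁻¹).2) h1
        rw [smul_sub, ← mul_smul, ← mul_smul] at h4
        have h5 : ((h⁻¹ : v.asIdeal.inertia G) : G) * (h : G) = 1 := by
          rw [← Subgroup.coe_mul, inv_mul_cancel, Subgroup.coe_one]
        rw [h5, one_smul, ← Subgroup.coe_mul, ← hkdef] at h4
        exact h4
      apply Subtype.ext
      apply hfaith
      intro i
      obtain ⟨a, ha, hg⟩ := exists_char hl hζ (hb i) (k : G)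
      obtain ⟨n, hn1, hn2⟩ := exists_val v (hb0 i)
      have h6 := smul_sub_mem v hπ1 hπ2 (hstab _ k.2) (fun x => k.2 x) hkπ hn1
      rw [hg] at h6
      by_cases ha1 : algebraMap A C a = 1
      · rw [hg, ha1, one_mul]
      · exfalso
        have h7 : algebraMap A C a * b i - b i = (algebraMap A C a - 1) * b i := by ring
        rw [h7] at h6
        have h8 : algebraMap A C a - 1 ∈ v.asIdeal := by
          by_contra h9
          exact hn2 (mem_pow_of_mul v h9 h6)
        exact hlv (Ideal.mem_of_dvd _ (sub_one_dvd ha ha1) h8)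
    have h9 := congrArg (fun z => h * z) hk
    simpa using h9
  -- count
  let f : v.asIdeal.inertia G → Polynomial.nthRootsFinset l (1 : C ⧸ v.asIdeal) := fun g =>
    ⟨Ideal.Quotient.mk v.asIdeal (t g), (Polynomial.mem_nthRootsFinset hl.pos 1).2 (hroot g)⟩
  have hf : Function.Injective f := fun g h hgh => hinj g h (congrArg Subtype.val hgh)
  have h1 := Nat.card_le_card_of_injective f hf
  refine h1.trans ?_
  rw [Nat.card_eq_fintype_card, Fintype.card_coe]
  unfold Polynomial.nthRootsFinset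
  refine (Multiset.toFinset_card_le _).trans (Polynomial.card_nthRoots l _)

attribute [local instance] Ideal.Quotient.field in
/-- The decomposition group at a prime not over `l` has at most `l ^ 2` elements. -/
theorem card_stab_le_of_not_mem [Finite G] (hl : l.Prime) {ζ : A}
    (hζ : IsPrimitiveRoot (algebraMap A C ζ) l)
    {ι : Type} (b : ι → C) (c : ι → A) (hb : ∀ i, b i ^ l = algebraMap A C (c i))
    (hb0 : ∀ i, b i ≠ 0) (hfaith : ∀ g : G, (∀ i, g • b i = b i) → g = 1)
    (v : HeightOneSpectrum C) [Finite (C ⧸ v.asIdeal)] (hlv : (l : C) ∉ v.asIdeal) :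
    Nat.card (MulAction.stabilizer G v.asIdeal) ≤ l ^ 2 := by
  classical
  have hmax : v.asIdeal.IsMaximal := v.isMaximal
  set p : Ideal A := v.asIdeal.under A with hp
  have hlo : v.asIdeal.LiesOver p := ⟨rfl⟩
  have hfinA : Finite (A ⧸ p) :=
    Finite.of_injective (algebraMap (A ⧸ p) (C ⧸ v.asIdeal))
      (Ideal.algebraMap_quotient_injective (R := A) (I := v.asIdeal))
  have hpm : p.IsMaximal := by
    have h1 : p.IsPrime := Ideal.IsPrime.under A v.asIdeal
    have h2 : IsDomain (A ⧸ p) := inferInstance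
    exact Ideal.Quotient.maximal_of_isField _ (Finite.isField_of_domain _)
  set φ : MulAction.stabilizer G v.asIdeal →* ((C ⧸ v.asIdeal) ≃ₐ[A ⧸ p] (C ⧸ v.asIdeal)) :=
    Ideal.Quotient.stabilizerHom v.asIdeal p G with hφ
  have h1 : Nat.card (MulAction.stabilizer G v.asIdeal) = Nat.card φ.range * Nat.card φ.ker := by
    rw [Subgroup.card_eq_card_quotient_mul_card_subgroup φ.ker,
      Nat.card_congr (QuotientGroup.quotientKerEquivRange φ).toEquiv]
  have h2 : Nat.card φ.ker ≤ l := by
    refine le_trans (le_of_eq ?_) (card_inertia_le hl hζ b c hb hb0 hfaith v hlv)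
    rw [← Ideal.Quotient.map_ker_stabilizer_subtype (P := v.asIdeal) (p := p) (G := G)]
    exact Nat.card_congr (Subgroup.equivMapOfInjective _ _ Subtype.val_injective).toEquiv
  have h3 : Nat.card φ.range ≤ l := by
    have hcyc : IsCyclic ((C ⧸ v.asIdeal) ≃ₐ[A ⧸ p] (C ⧸ v.asIdeal)) := inferInstance
    have hcyc2 : IsCyclic φ.range := inferInstance
    obtain ⟨g, hg⟩ := hcyc2.exists_generator
    have h4 : orderOf g = Nat.card φ.range := orderOf_eq_card_of_forall_mem_zpowers hg
    have h5 : g ^ l = 1 := by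
      obtain ⟨⟨_, ⟨x, rfl⟩⟩, hx⟩ : ∃ g', g' = g := ⟨g, rfl⟩
      rw [← hx]
      apply Subtype.ext
      rw [Subgroup.coe_pow, Subgroup.coe_one]
      change (φ x) ^ l = 1
      rw [← map_pow]
      have h6 : x ^ l = 1 := by
        apply Subtype.ext
        rw [Subgroup.coe_pow, Subgroup.coe_one]
        exact pow_eq_one hl hζ b c hb hfaith _
      rw [h6, map_one]
    rw [← h4]
    exact Nat.le_of_dvd hl.pos (orderOf_dvd_of_pow_eq_one h5)
  rw [h1, pow_two]
  exact Nat.mul_le_mul h3 h2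

/-- The decomposition group at a prime over `l` is trivial. -/
theorem stab_eq_one_of_mem (hl : l.Prime) {ζ : A}
    (hζ : IsPrimitiveRoot (algebraMap A C ζ) l) (hl0 : (l : C) ≠ 0)
    {ι : Type} (b : ι → C) (c : ι → A) (hb : ∀ i, b i ^ l = algebraMap A C (c i))
    (hc : ∀ i, ∃ d : A, c i = 1 + (l : A) ^ (l + 1) * d)
    (hfaith : ∀ g : G, (∀ i, g • b i = b i) → g = 1)
    (v : HeightOneSpectrum C) (hlv : (l : C) ∈ v.asIdeal) (g : G)
    (hg : g • v.asIdeal = v.asIdeal) : g = 1 := by
  classical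
  apply hfaith
  intro i
  obtain ⟨d, hd⟩ := hc i
  obtain ⟨e, he1, he2⟩ := exists_val v hl0
  -- some root of unity times `b i` is very close to one
  have hex : ∃ ξ : C, ξ ^ l = 1 ∧ 1 - ξ * b i ∈ v.asIdeal ^ (e + 1) := by
    by_contra hcon
    push Not at hcon
    have h0 : NeZero l := ⟨hl.ne_zero⟩
    have h1 : (∏ ξ ∈ Polynomial.nthRootsFinset l (1 : C), (1 - ξ * b i)) =
        - ((l : C) ^ (l + 1) * algebraMap A C d) := by
      rw [← IsPrimitiveRoot.pow_sub_pow_eq_prod_sub_mul 1 (b i) hl.pos hζ, hb, hd]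
      simp
    have h2 : v.intValuation (l : C) = exp (-(e : ℤ)) := by
      apply le_antisymm ((v.intValuation_le_pow_iff_mem _ e).2 he1)
      by_contra hlt
      push Not at hlt
      apply he2
      rw [← v.intValuation_le_pow_iff_mem]
      obtain ⟨m, hm⟩ : ∃ m : ℤ, v.intValuation (l : C) = exp m :=
        ⟨log (v.intValuation (l : C)), (exp_log (v.intValuation_ne_zero _ hl0)).symm⟩
      rw [hm, exp_lt_exp] at hlt
      rw [hm, exp_le_exp]
      push_cast
      omega
    have he0 : 0 < e := by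
      rcases Nat.eq_zero_or_pos e with h | h
      · rw [h] at he2
        exact absurd (by rwa [zero_add, pow_one]) he2
      · exact h
    have h3 : ∀ ξ ∈ Polynomial.nthRootsFinset l (1 : C),
        exp (-(e : ℤ)) ≤ v.intValuation (1 - ξ * b i) := by
      intro ξ hξ
      rw [Polynomial.mem_nthRootsFinset hl.pos] at hξ
      have h4 := hcon ξ hξ
      rw [← v.intValuation_le_pow_iff_mem, not_le] at h4
      have h5 : v.intValuation (1 - ξ * b i) ≠ 0 := by
        intro h0
        rw [h0] at h4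
        exact absurd h4 (not_lt_of_ge zero_le)
      obtain ⟨m, hm⟩ : ∃ m : ℤ, v.intValuation (1 - ξ * b i) = exp m :=
        ⟨log _, (exp_log h5).symm⟩
      rw [hm, exp_lt_exp] at h4
      rw [hm, exp_le_exp]
      push_cast at h4
      omega
    have h4 : (exp (-(e : ℤ)) : ℤᵐ⁰) ^ l ≤ ∏ ξ ∈ Polynomial.nthRootsFinset l (1 : C),
        v.intValuation (1 - ξ * b i) := by
      have h5 := Finset.prod_le_prod' (s := Polynomial.nthRootsFinset l (1 : C))
        (f := fun _ => (exp (-(e : ℤ)) : ℤᵐ⁰)) (g := fun ξ => v.intValuation (1 - ξ * b i)) h3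
      rw [Finset.prod_const, hζ.card_nthRootsFinset] at h5
      exact h5
    rw [← map_prod, h1, Valuation.map_neg, map_mul, map_pow, h2] at h4
    have h5 : (exp (-(e : ℤ)) : ℤᵐ⁰) ^ (l + 1) * v.intValuation (algebraMap A C d) ≤
        (exp (-(e : ℤ)) : ℤᵐ⁰) ^ (l + 1) * 1 := by
      gcongr
      exact v.intValuation_le_one _
    have h6 := h4.trans h5
    rw [mul_one, ← exp_nsmul, ← exp_nsmul, exp_le_exp] at h6
    simp only [smul_neg, nsmul_eq_mul, neg_le_neg_iff] at h6
    push_cast at h6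
    nlinarith
  obtain ⟨ξ, hξ, hclose⟩ := hex
  obtain ⟨k, hk⟩ := root_of_pow_eq hl hζ (x := ξ) (y := (1 : C)) (by rw [hξ, one_pow])
  rw [mul_one] at hk
  -- `b' = ξ b i`
  obtain ⟨a, ha, hgb⟩ := exists_char hl hζ (hb i) g
  by_cases ha1 : algebraMap A C a = 1
  · rw [hgb, ha1, one_mul]
  · exfalso
    have h1 : g • (1 - ξ * b i) ∈ v.asIdeal ^ (e + 1) := smul_mem_pow v hg hclose
    have h2 : g • (1 - ξ * b i) = 1 - algebraMap A C a * (ξ * b i) := by
      rw [smul_sub, smul_one, smul_mul', hk, smul_map, hgb]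
      ring
    rw [h2] at h1
    have h3 : (algebraMap A C a - 1) * (ξ * b i) ∈ v.asIdeal ^ (e + 1) := by
      have h4 := Ideal.sub_mem _ hclose h1
      have h5 : (1 - ξ * b i) - (1 - algebraMap A C a * (ξ * b i)) =
          (algebraMap A C a - 1) * (ξ * b i) := by ring
      rwa [h5] at h4
    have h4 : ξ * b i ∉ v.asIdeal := by
      intro h5
      have h6 : (1 : C) ∈ v.asIdeal := by
        have h7 := Ideal.add_mem _ (Ideal.pow_le_self (by omega) hclose) h5
        simpa using h7
      exact v.isPrime.ne_top ((Ideal.eq_top_iff_one _).2 h6)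
    rw [mul_comm] at h3
    have h5 := mem_pow_of_mul v h4 h3
    exact he2 (Ideal.mem_of_dvd _ (sub_one_dvd ha ha1) h5)

/-- Part B4: every decomposition group has at most `l ^ 2` elements. -/
theorem card_stab_le [Finite G] (hl : l.Prime) {ζ : A}
    (hζ : IsPrimitiveRoot (algebraMap A C ζ) l) (hl0 : (l : C) ≠ 0)
    {ι : Type} (b : ι → C) (c : ι → A) (hb : ∀ i, b i ^ l = algebraMap A C (c i))
    (hb0 : ∀ i, b i ≠ 0)
    (hc : ∀ i, ∃ d : A, c i = 1 + (l : A) ^ (l + 1) * d)
    (hfaith : ∀ g : G, (∀ i, g • b i = b i) → g = 1)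
    (v : HeightOneSpectrum C) [Finite (C ⧸ v.asIdeal)] :
    Nat.card (MulAction.stabilizer G v.asIdeal) ≤ l ^ 2 := by
  by_cases hlv : (l : C) ∈ v.asIdeal
  · have h1 : Nat.card (MulAction.stabilizer G v.asIdeal) ≤ 1 := by
      rw [Finite.card_le_one_iff_subsingleton]
      refine ⟨fun x y => Subtype.ext ?_⟩
      rw [stab_eq_one_of_mem hl hζ hl0 b c hb hc hfaith v hlv x x.2,
        stab_eq_one_of_mem hl hζ hl0 b c hb hc hfaith v hlv y y.2]
    exact h1.trans (Nat.one_le_pow _ _ hl.pos)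
  · exact card_stab_le_of_not_mem hl hζ b c hb hb0 hfaith v hlv

end kummer

end Pool.Agent.MP_0d9be2.H7.B4
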