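import Pool.Agent.Lib.MP_0d9be2_nt.Defs

/-!
# PART 3 of council 27: statement 3.2
-/

set_option autoImplicit false

open scoped NumberField
open IsDedekindDomain

namespace Pool.Agent.MP_0d9be2

/-- PART 3.2. The number of affine points of the base change of a fixed model at a prime `w` over
`v` depends only on the residue degree of `w`. -/
def Same_S : Prop :=
  ∀ (K : Type) [Field K] [NumberField K] (v : HeightOneSpectrum (𝓞 K)) (W₀ : WeierstrassCurve (𝓞 K)),
    ∃ N : ℕ → ℕ, ∀ (F : Type) [Field F] [NumberField F] [Algebra K F]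
      (w : HeightOneSpectrum (𝓞 F)), w.asIdeal.LiesOver v.asIdeal →
      affPts (W₀.map (algebraMap (𝓞 K) (𝓞 F))) w = N (w.asIdeal.inertiaDeg (𝓞 K)) ∧
        Ideal.absNorm w.asIdeal = Ideal.absNorm v.asIdeal ^ (w.asIdeal.inertiaDeg (𝓞 K))

end Pool.Agent.MP_0d9be2
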