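import Pool.Agent.Lib.MP_0d9be2_nt.H7.Count

/-!
# The number of points over a quadratic extension of a finite field

`aff (W over l) + 1 = (aff W + 1) * (2 q + 1 - aff W)`, `q = #k`.
-/

set_option autoImplicit false

namespace Pool.Agent.MP_0d9be2.H7

open WeierstrassCurve WeierstrassCurve.Affine

variable {k l : Type} [Field k] [Finite k] [Field l] [Algebra k l]

section

variable (W : WeierstrassCurve k) [W.IsElliptic]

theorem card_subtype_point {F : Type} [Field F] (V : WeierstrassCurve F) [V.IsElliptic] [Finite F]
    (p : V.toAffine.Point → Prop) (p0 : p .zero) (r : F → F → Prop)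
    (hp : ∀ (x y : F) (h : V.toAffine.Nonsingular x y), p (.some x y h) ↔ r x y) :
    Nat.card {P : V.toAffine.Point // p P} =
      Nat.card {xy : F × F // V.toAffine.Equation xy.1 xy.2 ∧ r xy.1 xy.2} + 1 := by
  rw [Nat.card_congr (nonsingularPointEquivSubtype p0)]
  have h1 : Nat.card (WithZero {xy : F × F // ∃ h : V.toAffine.Nonsingular xy.fst xy.snd,
      p (.some _ _ h)}) = Nat.card {xy : F × F // ∃ h : V.toAffine.Nonsingular xy.fst xy.snd,
      p (.some _ _ h)} + 1 := Finite.card_option
  rw [h1]
  congr 1
  refine Nat.card_congr (Equiv.subtypeEquivRight fun xy => ?_)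
  constructor
  · rintro ⟨h, hh⟩
    exact ⟨h.1, (hp _ _ h).1 hh⟩
  · rintro ⟨h, hh⟩
    have h' : V.toAffine.Nonsingular xy.1 xy.2 := equation_iff_nonsingular.1 h
    exact ⟨h', (hp _ _ h').2 hh⟩

end

/-- Every rational point is a norm. -/
theorem norm_surjective [DecidableEq l] (hl : Module.finrank k l = 2) (σ : l ≃ₐ[k] l)
    (hfix : ∀ x, σ x = x → ∃ a : k, algebraMap k l a = x) (_hinv : ∀ x, σ (σ x) = x)
    (W : WeierstrassCurve k) [W.IsElliptic]
    (P : (W.baseChange l).toAffine.Point)
    (hP : Point.map (W' := W) (σ : l →ₐ[k] l) P = P) :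
    ∃ Q : (W.baseChange l).toAffine.Point,
      Point.map (W' := W) (σ : l →ₐ[k] l) Q + Q = P := by
  classical
  have hfin : Module.Finite k l := Module.finite_of_finrank_pos (by omega)
  have hfl : Finite l := Module.finite_of_finite k
  rcases P with _ | ⟨x₀, yP, hPn⟩
  · exact ⟨0, by simp; rfl⟩
  -- coordinates in `k`
  rw [Point.map_some] at hP
  have hx₀ : σ x₀ = x₀ := (Point.some.inj hP).1
  have hyP : σ yP = yP := (Point.some.inj hP).2
  obtain ⟨a, rfl⟩ := hfix x₀ hx₀
  obtain ⟨b, rfl⟩ := hfix yP hyP
  set c : k := W.toAffine.negY a b with hc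
  have hcl : (W.baseChange l).toAffine.negY (algebraMap k l a) (algebraMap k l b) =
      algebraMap k l c := by
    simp [negY, hc, WeierstrassCurve.baseChange]
  have hab : W.toAffine.Nonsingular a b :=
    (W.toAffine.map_nonsingular (algebraMap k l).injective _ _).1 hPn
  have hac : W.toAffine.Nonsingular a c := (nonsingular_neg _ _).2 hab
  -- coefficients over `l`
  have hrb : ∀ t : k, rb (W.baseChange l) (algebraMap k l a) (algebraMap k l t) =
      algebraMap k l (rb W a t) := by
    intro t
    simp [rb, WeierstrassCurve.baseChange]
  have hrc : ∀ t : k, rc (W.baseChange l) (algebraMap k l a) (algebraMap k l c)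
      (algebraMap k l t) = algebraMap k l (rc W a c t) := by
    intro t
    simp only [rc, rb, WeierstrassCurve.baseChange, WeierstrassCurve.map_a₁,
      WeierstrassCurve.map_a₂, WeierstrassCurve.map_a₃, WeierstrassCurve.map_a₄, map_sub, map_add,
      map_mul, map_pow, map_ofNat]
  have hell : (W.baseChange l).IsElliptic :=
    inferInstanceAs (W.map (algebraMap k l)).IsElliptic
  by_contra hno
  push Not at hno
  -- all residual quadratics have two different roots in `k`
  have key : ∀ t : k, ∃ r : k, r ^ 2 + rb W a t * r + rc W a c t = 0 ∧ r ≠ - rb W a t - r := by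
    intro t
    obtain ⟨r, hr⟩ := quad_root hl (rb W a t) (rc W a c t)
    have hEq : ∀ z : l, z ^ 2 + algebraMap k l (rb W a t) * z + algebraMap k l (rc W a c t) = 0 →
        (W.baseChange l).toAffine.Nonsingular z
          ((W.baseChange l).toAffine.negY (algebraMap k l a) (algebraMap k l b) +
            algebraMap k l t * (z - algebraMap k l a)) := by
      intro z hz
      refine (equation_iff_nonsingular (W := W.baseChange l)).1 ?_
      rw [hcl]
      have hcEq : (W.baseChange l).toAffine.Equation (algebraMap k l a) (algebraMap k l c) :=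
        (W.toAffine.map_equation (algebraMap k l).injective _ _).2 hac.1
      rw [line_equation_iff hcEq, hrb, hrc, hz, mul_zero]
    by_cases hσ : σ r = r
    · obtain ⟨r', rfl⟩ := hfix r hσ
      have hr' : r' ^ 2 + rb W a t * r' + rc W a c t = 0 := by
        apply (algebraMap k l).injective
        rw [map_add, map_add, map_mul, map_pow, map_zero]
        exact hr
      refine ⟨r', hr', fun hd => ?_⟩
      -- double root
      have hns := hEq _ hr
      refine hno (Point.some _ _ hns) ?_
      have hσQ : Point.map (W' := W) (σ : l →ₐ[k] l) (Point.some _ _ hns) =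
          Point.some _ _ hns := by
        rw [Point.map_some]
        congr 1
        rw [hcl]
        simp
      rw [hσQ]
      apply add_residual_self hPn (algebraMap k l t) (algebraMap k l r')
      · rw [hrb, ← map_neg, ← map_add]
        congr 1
        linear_combination hd
      · rw [hcl, hrc, ← map_mul]
        congr 1
        linear_combination r' * hd - hr'
    · exfalso
      have hσr : σ r = - algebraMap k l (rb W a t) - r := by
        have h1 : σ r ^ 2 + algebraMap k l (rb W a t) * σ r + algebraMap k l (rc W a c t) = 0 := by
          have := congrArg σ hr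
          simpa using this
        have h2 : (σ r - r) * (σ r - (- algebraMap k l (rb W a t) - r)) = 0 := by
          linear_combination h1 - hr
        rcases mul_eq_zero.1 h2 with h | h
        · exact absurd (sub_eq_zero.1 h) hσ
        · exact sub_eq_zero.1 h
      have hr2 : (σ r) ^ 2 + algebraMap k l (rb W a t) * (σ r) +
          algebraMap k l (rc W a c t) = 0 := by
        rw [hσr]
        linear_combination hr
      have hns := hEq _ hr
      have hns2 := hEq _ hr2
      refine hno (Point.some _ _ hns) ?_
      have hσQ : Point.map (W' := W) (σ : l →ₐ[k] l) (Point.some _ _ hns) =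
          Point.some _ _ hns2 := by
        rw [Point.map_some]
        congr 1
        rw [hcl]
        simp
      rw [hσQ]
      apply add_residual hPn (algebraMap k l t) (σ r) r hσ
      rw [hrb, hσr]
      ring
  choose r hr hrne using key
  -- the two roots
  let s : k → Bool → k := fun t i => if i then r t else - rb W a t - r t
  have hs : ∀ t i, (s t i) ^ 2 + rb W a t * (s t i) + rc W a c t = 0 := by
    intro t i
    rcases i with _ | _
    · simp only [s, Bool.false_eq_true, if_false]
      linear_combination hr t
    · simp only [s, if_true]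
      exact hr t
  have hsinj : ∀ t i j, s t i = s t j → i = j := by
    intro t i j h
    rcases i with _ | _ <;> rcases j with _ | _
    · rfl
    · simp only [s, Bool.false_eq_true, if_false, if_true] at h
      exact absurd h.symm (hrne t)
    · simp only [s, Bool.false_eq_true, if_false, if_true] at h
      exact absurd h (hrne t)
    · rfl
  -- the partial derivatives at `(a, c)`
  have hbase : ∀ t i, s t i = a → (3 * a ^ 2 + 2 * W.a₂ * a + W.a₄ - W.a₁ * c) =
      t * (2 * c + W.a₁ * a + W.a₃) := by
    intro t i h
    have h1 := hs t i
    rw [h, resid_at_base] at h1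
    linear_combination h1
  have hWy : ∀ t i, s t i = a → 2 * c + W.a₁ * a + W.a₃ ≠ 0 := by
    intro t i h h0
    have h1 := hbase t i h
    rw [h0, mul_zero] at h1
    rcases (nonsingular_iff' _ _).1 hac |>.2 with h2 | h2
    · apply h2
      linear_combination -h1
    · exact h2 h0
  have hpt : ∀ t i, W.toAffine.Equation (s t i) (c + t * (s t i - a)) := by
    intro t i
    rw [line_equation_iff hac.1, hs t i, mul_zero]
  let G : Option (k × Bool) → {xy : k × k // W.toAffine.Equation xy.1 xy.2} := fun z =>
    match z with
    | none => ⟨(a, b), hab.1⟩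
    | some (t, i) => ⟨(s t i, c + t * (s t i - a)), hpt t i⟩
  have hGinj : Function.Injective G := by
    have hns : ∀ t i, G none ≠ G (some (t, i)) := by
      intro t i h
      have h1 := congrArg (fun z => z.1) h
      simp only [G, Prod.mk.injEq] at h1
      obtain ⟨h2, h3⟩ := h1
      apply hWy t i h2.symm
      rw [← h2, sub_self, mul_zero, add_zero] at h3
      simp only [negY] at hc
      linear_combination hc - h3
    rintro (_ | ⟨t, i⟩) (_ | ⟨u, j⟩) h
    · rfl
    · exact absurd h (hns u j)
    · exact absurd h.symm (hns t i)
    · have h1 := congrArg (fun z => z.1) h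
      simp only [G, Prod.mk.injEq] at h1
      obtain ⟨h2, h3⟩ := h1
      have htu : t = u := by
        rw [← h2] at h3
        by_cases hz : s t i = a
        · have h4 := hbase t i hz
          have h5 := hbase u j (h2 ▸ hz)
          have h6 : (t - u) * (2 * c + W.a₁ * a + W.a₃) = 0 := by linear_combination h5 - h4
          rcases mul_eq_zero.1 h6 with h7 | h7
          · exact sub_eq_zero.1 h7
          · exact absurd h7 (hWy t i hz)
        · have h4 : (t - u) * (s t i - a) = 0 := by linear_combination h3
          rcases mul_eq_zero.1 h4 with h7 | h7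
          · exact sub_eq_zero.1 h7
          · exact absurd (sub_eq_zero.1 h7) hz
      subst htu
      rw [hsinj t i j h2]
  have hcard := Nat.card_le_card_of_injective G hGinj
  have hcard2 : Nat.card (Option (k × Bool)) = 2 * Nat.card k + 1 := by
    rw [Finite.card_option, Nat.card_prod, Nat.card_eq_fintype_card (α := Bool), Fintype.card_bool,
      mul_comm]
  have hanti := card_anti hl σ hfix W
  unfold aff at hanti
  omega

/-- The number of points over a quadratic extension. -/
theorem aff_square (hl : Module.finrank k l = 2) (W : WeierstrassCurve k) [W.IsElliptic] :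
    (aff (W.map (algebraMap k l)) : ℤ) + 1 = (aff W + 1) * (2 * Nat.card k + 1 - aff W) := by
  classical
  have hfin : Module.Finite k l := Module.finite_of_finrank_pos (by omega)
  have hfl : Finite l := Module.finite_of_finite k
  obtain ⟨σ, hinv, hfix⟩ := exists_sigma (k := k) (l := l) hl
  set φ : (W.baseChange l).toAffine.Point →+ (W.baseChange l).toAffine.Point :=
    Point.map (W' := W) (σ : l →ₐ[k] l) with hφ
  have hφφ : ∀ P, φ (φ P) = P := by
    intro P
    rw [hφ, Point.map_map]
    rcases P with _ | ⟨x, y, h⟩
    · rfl
    · rw [Point.map_some]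
      congr 1
      · exact hinv x
      · exact hinv y
  set N : (W.baseChange l).toAffine.Point →+ (W.baseChange l).toAffine.Point :=
    φ + AddMonoidHom.id _ with hN
  have hNapp : ∀ P, N P = φ P + P := fun P => rfl
  have hrange : ∀ P, P ∈ N.range ↔ φ P = P := by
    intro P
    constructor
    · rintro ⟨Q, rfl⟩
      rw [hNapp, map_add, hφφ, add_comm]
    · intro h
      obtain ⟨Q, hQ⟩ := norm_surjective hl σ hfix hinv W P h
      exact ⟨Q, hQ⟩
  have hell : (W.baseChange l).IsElliptic :=
    inferInstanceAs (W.map (algebraMap k l)).IsElliptic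
  have h1 : Nat.card (W.baseChange l).toAffine.Point = Nat.card N.range * Nat.card N.ker := by
    rw [AddSubgroup.card_eq_card_quotient_mul_card_addSubgroup N.ker,
      Nat.card_congr (QuotientAddGroup.quotientKerEquivRange N).toEquiv]
  have h2 : Nat.card N.range = aff W + 1 := by
    have h3 : Nat.card N.range = Nat.card {P : (W.baseChange l).toAffine.Point // φ P = P} :=
      Nat.card_congr (Equiv.subtypeEquivRight hrange)
    rw [h3, card_subtype_point (W.baseChange l) (fun P => φ P = P) rfl
      (fun x y => σ x = x ∧ σ y = y)]
    · congr 1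
      exact card_fix σ hfix W
    · intro x y h
      constructor
      · intro h4
        exact ⟨(Point.some.inj h4).1, (Point.some.inj h4).2⟩
      · rintro ⟨h4, h5⟩
        rw [hφ, Point.map_some]
        congr 1
  have h3 : (Nat.card N.ker : ℤ) = 2 * Nat.card k + 1 - aff W := by
    have h4 : Nat.card N.ker = Nat.card {P : (W.baseChange l).toAffine.Point // φ P = -P} := by
      refine Nat.card_congr (Equiv.subtypeEquivRight fun P => ?_)
      rw [AddMonoidHom.mem_ker, hNapp, eq_neg_iff_add_eq_zero]
    have h5 := card_anti hl σ hfix W
    rw [h4, card_subtype_point (W.baseChange l) (fun P => φ P = -P) rfl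
      (fun x y => σ x = x ∧ σ y = (W.baseChange l).toAffine.negY x y)]
    · push_cast
      have h6 : (Nat.card {xy : l × l // (W.baseChange l).toAffine.Equation xy.1 xy.2 ∧
        (σ xy.1 = xy.1 ∧ σ xy.2 = (W.baseChange l).toAffine.negY xy.1 xy.2)} : ℤ) + aff W =
          2 * Nat.card k := by exact_mod_cast h5
      linarith
    · intro x y h
      constructor
      · intro h4
        rw [Point.neg_some] at h4
        exact ⟨(Point.some.inj h4).1, (Point.some.inj h4).2⟩
      · rintro ⟨h4, h5⟩
        rw [hφ, Point.map_some, Point.neg_some]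
        congr 1
  have h6 : Nat.card (W.baseChange l).toAffine.Point = aff (W.map (algebraMap k l)) + 1 := by
    have h7 : Nat.card (W.baseChange l).toAffine.Point =
        Nat.card {P : (W.baseChange l).toAffine.Point // True} :=
      Nat.card_congr (Equiv.subtypeUnivEquiv fun _ => trivial).symm
    rw [h7, card_subtype_point (W.baseChange l) (fun _ => True) trivial (fun _ _ => True)
      (fun _ _ _ => Iff.rfl)]
    congr 1
    exact Nat.card_congr (Equiv.subtypeEquivRight fun xy => by simp; rfl)
  have h7 : ((Nat.card (W.baseChange l).toAffine.Point : ℕ) : ℤ) =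
      (Nat.card N.range : ℤ) * (Nat.card N.ker : ℤ) := by exact_mod_cast h1
  rw [h6, h3, h2] at h7
  push_cast at h7
  exact h7

end Pool.Agent.MP_0d9be2.H7
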