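import Pool.Agent.Lib.MP_0d9be2_nt.H7.Model
import Pool.Agent.Lib.MP_0d9be2_nt.H7.Iface
import Pool.Agent.Lib.MP_0d9be2_nt.H7.Iface2

/-!
# Assembly of PART 3 (`Curves_S`) from 3.1 and 3.2
-/

set_option autoImplicit false

open scoped NumberField
open IsDedekindDomain

namespace Pool.Agent.MP_0d9be2.H7

open Pool.Agent.MP_0d9be2

/-- The base change of a model is a model of the base change. -/
theorem isModel_map {K F : Type} [Field K] [NumberField K] [Field F] [NumberField F] [Algebra K F]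
    {E : WeierstrassCurve K} {W : WeierstrassCurve (𝓞 K)} (h : IsModel E W) :
    IsModel (E.map (algebraMap K F)) (W.map (algebraMap (𝓞 K) (𝓞 F))) := by
  obtain ⟨C, hC⟩ := h
  refine ⟨C.map (algebraMap K F), ?_⟩
  rw [WeierstrassCurve.map_map, ← hC, ← WeierstrassCurve.map_variableChange,
    WeierstrassCurve.map_map, ← IsScalarTower.algebraMap_eq (𝓞 K) (𝓞 F) F,
    ← IsScalarTower.algebraMap_eq (𝓞 K) K F]

theorem mem_of_liesOver {K F : Type} [Field K] [NumberField K] [Field F] [NumberField F]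
    [Algebra K F] (v : HeightOneSpectrum (𝓞 K)) (w : HeightOneSpectrum (𝓞 F))
    (h : w.asIdeal.LiesOver v.asIdeal) (x : 𝓞 K) :
    algebraMap (𝓞 K) (𝓞 F) x ∈ w.asIdeal ↔ x ∈ v.asIdeal := by
  rw [h.over, Ideal.mem_comap]

/-- PART 3 from 3.1 and 3.2. -/
theorem curves (hC : Change_S) (hS : Same_S) : Curves_S := by
  intro K _ _ E _
  obtain ⟨W₀, hW₀⟩ := exists_model E
  refine ⟨{v | W₀.Δ ∈ v.asIdeal}, finite_dvd (model_disc_ne_zero hW₀), fun v hv => ?_⟩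
  obtain ⟨N, hN⟩ := hS K v W₀
  refine ⟨fun f s => (1 - (((Ideal.absNorm v.asIdeal ^ f : ℕ) : ℂ) - (N f : ℂ))
    * ((Ideal.absNorm v.asIdeal ^ f : ℕ) : ℂ) ^ (-s)
    + ((Ideal.absNorm v.asIdeal ^ f : ℕ) : ℂ)
      * ((Ideal.absNorm v.asIdeal ^ f : ℕ) : ℂ) ^ (-2 * s))⁻¹, ?_⟩
  intro F _ _ _ w W hw hW s
  have hv' : W₀.Δ ∉ v.asIdeal := hv
  have h1 : (W₀.map (algebraMap (𝓞 K) (𝓞 F))).Δ ∉ w.asIdeal := by
    rw [WeierstrassCurve.map_Δ, mem_of_liesOver v w hw]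
    exact hv'
  have h0 : IsModel (E.map (algebraMap K F)) (W₀.map (algebraMap (𝓞 K) (𝓞 F))) := isModel_map hW₀
  have h2 : W.Δ ∉ w.asIdeal := by
    intro h
    have := hW.2 _ h0 1 (by rwa [pow_one])
    rw [pow_one] at this
    exact h1 this
  obtain ⟨h3, h4⟩ := hN F w hw
  have h5 : affPts W w = N (w.asIdeal.inertiaDeg (𝓞 K)) := by
    rw [← h3]
    exact hC F (E.map (algebraMap K F)) W _ w hW.1 h0 h2 h1
  unfold factor
  rw [if_neg h2, h5, h4]

end Pool.Agent.MP_0d9be2.H7
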