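import Pool.Agent.Lib.MP_0d9be2_nt.H7.Bridge2
import Pool.Agent.Lib.MP_0d9be2_nt.H63.Iface

/-!
`Bridge_S`: every nonzero prime ideal of the ring of integers of the algebraic closure comes from
an absolute value.
-/

set_option autoImplicit false

open scoped NumberField Pointwise

namespace Pool.Agent.MP_0d9be2.H7

theorem frac_of_lt {Ω : Type*} [Field Ω] [CharZero Ω] [Algebra.IsAlgebraic ℚ Ω]
    (v : AbsoluteValue Ω ℝ) (hle : ∀ x : 𝓞 Ω, v (x : Ω) ≤ 1)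
    (P : Ideal (𝓞 Ω)) [hP : P.IsPrime] (hvP : ∀ x : 𝓞 Ω, v (x : Ω) < 1 ↔ x ∈ P)
    (z : Ω) (hz1 : v z < 1) : ∃ a b : 𝓞 Ω, a ∈ P ∧ b ∉ P ∧ z * (b : Ω) = (a : Ω) := by
  have hz0 : IsAlgebraic ℤ z :=
    (IsFractionRing.isAlgebraic_iff ℤ ℚ Ω).2 (Algebra.IsAlgebraic.isAlgebraic (R := ℚ) z)
  obtain ⟨n, hn, hz⟩ := hz0.exists_integral_multiple
  have hn0 : (n : Ω) ≠ 0 := by exact_mod_cast hn
  obtain ⟨a, ha⟩ : ∃ a : 𝓞 Ω, (a : Ω) = n • z := ⟨⟨n • z, hz⟩, rfl⟩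
  have hnz : (n : Ω) * z = (a : Ω) := by
    rw [ha, zsmul_eq_mul]
  have hnc : (((n : ℤ) : 𝓞 Ω) : Ω) = (n : Ω) := by simp
  obtain ⟨e, s, hs, h | h⟩ := Bridge.dichotomy' P a (n : 𝓞 Ω)
  · exfalso
    have h3 : (a : Ω) * (e : Ω) = (((n : ℤ) : 𝓞 Ω) : Ω) * (s : Ω) :=
      congrArg (fun y : 𝓞 Ω => (y : Ω)) h
    rw [hnc, ← hnz, mul_assoc] at h3
    have h4 : z * (e : Ω) = (s : Ω) := mul_left_cancel₀ hn0 h3
    have h5 : v z * v (e : Ω) < 1 :=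
      mul_lt_one_of_nonneg_of_lt_one_left (v.nonneg z) hz1 (hle e)
    rw [← map_mul, h4] at h5
    exact hs ((hvP s).1 h5)
  · have h3 : (((n : ℤ) : 𝓞 Ω) : Ω) * (e : Ω) = (a : Ω) * (s : Ω) :=
      congrArg (fun y : 𝓞 Ω => (y : Ω)) h
    rw [hnc, ← hnz, mul_assoc] at h3
    have h4 : (e : Ω) = z * (s : Ω) := mul_left_cancel₀ hn0 h3
    refine ⟨e, s, ?_, hs, h4.symm⟩
    rw [← hvP, h4, map_mul]
    exact mul_lt_one_of_nonneg_of_lt_one_left (v.nonneg z) hz1 (hle s)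

theorem bridge : Bridge_S := by
  intro K _ _ P hP hP0
  have halg : Algebra.IsAlgebraic ℚ (AlgebraicClosure K) :=
    Algebra.IsAlgebraic.trans ℚ K (AlgebraicClosure K)
  obtain ⟨v, hv, _, hle, hvP⟩ := Bridge.bridge (AlgebraicClosure K) P hP0
  refine ⟨v, hv, fun x hx => (hvP x).2 hx, fun x hx => ?_, fun x hx => ?_⟩
  · exact le_antisymm (hle x) (not_lt.1 (fun h => hx ((hvP x).1 h)))
  · exact frac_of_lt v hle P hvP x hx

end Pool.Agent.MP_0d9be2.H7
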