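import Pool.Agent.Lib.MP_0d9be2_nt.H39.Primes
import Pool.Agent.Lib.MP_0d9be2_nt.H7.B4

/-!
# Part B3 of Theorem S: elements of the Kummer group which move only one root
-/

set_option autoImplicit false

open IsDedekindDomain Ideal
open scoped Pointwise

namespace Pool.Agent.MP_0d9be2.H7.B3

open Pool.Agent.MP_0d9be2.H7.B4

section inertia

variable {A C : Type} [CommRing A] [IsDedekindDomain A] [CommRing C] [IsDedekindDomain C]
  [Algebra A C] [Module.Finite A C] [Module.Flat A C]
variable {N : Type} [Group N] [Finite N] [MulSemiringAction N C] [IsGaloisGroup N A C]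
variable {l : ℕ}

/-- If `b ^ l` is a uniformizer of `A` at `P`, then inertia at the primes over `P` is not
trivial. -/
theorem exists_inertia_ne_one (hl : 2 ≤ l) (v : HeightOneSpectrum C) (P : Ideal A) [P.IsMaximal]
    (hP0 : P ≠ ⊥) (hlo : v.asIdeal.LiesOver P) [Finite (A ⧸ P)] {α : A} (h1 : α ∈ P)
    (h2 : α ∉ P ^ 2) {b : C} (hb : b ^ l = algebraMap A C α) :
    ∃ n : N, n ∈ v.asIdeal.inertia N ∧ n ≠ 1 := by
  have hperf : PerfectField P.ResidueField :=
    Pool.Agent.MP_0d9be2.H39.perfectField_residueField P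
  have hcard : Nat.card (v.asIdeal.inertia N) = P.ramificationIdxIn C :=
    card_inertia_eq_ramificationIdxIn (G := N) P v.asIdeal
  rw [ramificationIdxIn_eq_ramificationIdx P v.asIdeal N] at hcard
  -- `b` lies in `v`
  have hbv : b ∈ v.asIdeal := by
    have h3 : b ^ l ∈ v.asIdeal := by
      rw [hb]
      have h4 : α ∈ v.asIdeal.under A := by rwa [← hlo.over]
      exact h4
    exact v.isPrime.mem_of_pow_mem _ h3
  have hα2 : algebraMap A C α ∈ v.asIdeal ^ 2 := by
    rw [← hb]
    exact Ideal.pow_le_pow_right hl (Ideal.pow_mem_pow hbv l)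
  have hmap1 : P.map (algebraMap A C) ≤ v.asIdeal := by
    rw [Ideal.map_le_iff_le_comap]
    exact le_of_eq hlo.over
  have hmap : P.map (algebraMap A C) ≤ v.asIdeal ^ 2 := by
    rw [Ideal.map_le_iff_le_comap]
    intro x hx
    have h3 : α ∈ P ^ 1 := by rwa [pow_one]
    have h4 : x ∈ P ^ 1 := by rwa [pow_one]
    obtain ⟨d, e, he, rfl⟩ := Ideal.exists_mul_add_mem_pow_succ hP0 α x h3 h2 h4
    rw [Ideal.mem_comap, map_add, map_mul]
    refine Ideal.add_mem _ (Ideal.mul_mem_right _ _ hα2) ?_
    have h5 : algebraMap A C e ∈ (P.map (algebraMap A C)) ^ 2 := by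
      rw [← Ideal.map_pow]
      exact Ideal.mem_map_of_mem _ he
    exact Ideal.pow_right_mono hmap1 2 h5
  have hne : v.asIdeal.ramificationIdx A ≠ 1 := by
    have h3 : ramificationIdx' P v.asIdeal ≠ 1 := (ramificationIdx'_ne_one_iff hmap1).2 hmap
    rw [ramificationIdx'_eq_ramificationIdx] at h3
    · exact h3
    · exact hP0
  rw [← hcard] at hne
  by_contra hcon
  push Not at hcon
  apply hne
  have h4 : v.asIdeal.inertia N = ⊥ := by
    rw [eq_bot_iff]
    intro n hn
    exact hcon n hn
  rw [h4]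
  exact Subgroup.card_bot

omit [IsDedekindDomain A] [Module.Finite A C] [Module.Flat A C] [Finite N]
  [IsGaloisGroup N A C] in
/-- An inertia element fixes the `l`-th roots of units. -/
theorem inertia_fix [SMulCommClass N A C] (hl : l.Prime) {ζ : A}
    (hζ : IsPrimitiveRoot (algebraMap A C ζ) l) (v : HeightOneSpectrum C)
    (hlv : (l : C) ∉ v.asIdeal) {b : C} {c : A} (hb : b ^ l = algebraMap A C c)
    (hc : algebraMap A C c ∉ v.asIdeal) (n : N) (hn : n ∈ v.asIdeal.inertia N) : n • b = b := by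
  obtain ⟨a, ha, hg⟩ := exists_char hl hζ hb n
  by_cases ha1 : algebraMap A C a = 1
  · rw [hg, ha1, one_mul]
  · exfalso
    have h1 : n • b - b ∈ v.asIdeal := hn b
    rw [hg] at h1
    have h2 : algebraMap A C a * b - b = (algebraMap A C a - 1) * b := by ring
    rw [h2] at h1
    rcases v.isPrime.mem_or_mem h1 with h3 | h3
    · exact hlv (Ideal.mem_of_dvd _ (sub_one_dvd ha ha1) h3)
    · apply hc
      rw [← hb]
      exact Ideal.pow_mem_of_mem _ h3 _ hl.pos

end inertia

section classes

variable {G X : Type} [Group G] [Finite G] [MulAction G X]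

omit [Finite G] in
theorem mem_of_zpow_mem {l : ℕ} (hl : l.Prime) {x : G} (hx : x ^ l = 1) (S : Subgroup G) {k : ℤ}
    (hk : x ^ k ∈ S) (hnd : ¬ (l : ℤ) ∣ k) : x ∈ S := by
  have hcop : IsCoprime (l : ℤ) k :=
    (Prime.coprime_iff_not_dvd (Nat.prime_iff_prime_int.1 hl)).2 hnd
  obtain ⟨u, w, huw⟩ := hcop
  have h1 : x = (x ^ k) ^ w := by
    have h2 : x ^ (u * (l : ℤ) + w * k) = x := by rw [huw, zpow_one]
    rw [zpow_add, mul_comm u, zpow_mul, zpow_natCast, hx, one_zpow, one_mul, mul_comm w,
      zpow_mul] at h2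
    exact h2.symm
  rw [h1]
  exact S.zpow_mem hk w

/-- The number of `N`-conjugates of an element `g` when there are elements of `N` that move only
one of the points `β i`. -/
theorem class_card (N : Subgroup G) (hab : ∀ a ∈ N, ∀ b ∈ N, a * b = b * a) {l r : ℕ}
    (hl : l.Prime) (β : Fin r → X) (x : Fin r → G) (hx : ∀ i, x i ∈ N) (hxl : ∀ i, x i ^ l = 1)
    (hfix : ∀ i j, i ≠ j → x i • β j = β j) (hmove : ∀ i, x i • β i ≠ β i) (g : G)
    (hg : ∀ i j, x i • (g • β j) = g • β j) :
    l ^ r ≤ Nat.card {y : G // ∃ n ∈ N, y = n * g * n⁻¹} := by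
  classical
  let cg : CommGroup N := { (inferInstance : Group N) with
    mul_comm := fun a b => Subtype.ext (hab a a.2 b b.2) }
  let z : Fin r → N := fun i => ⟨x i, hx i⟩
  let n : (Fin r → Fin l) → N := fun a => ∏ i, z i ^ ((a i : ℕ) : ℤ)
  let f : (Fin r → Fin l) → {y : G // ∃ n ∈ N, y = n * g * n⁻¹} := fun a =>
    ⟨(n a : G) * g * (n a : G)⁻¹, n a, (n a).2, rfl⟩
  have hf : Function.Injective f := by
    intro a a' haa
    have h1 : (n a : G) * g * (n a : G)⁻¹ = (n a' : G) * g * (n a' : G)⁻¹ :=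
      congrArg Subtype.val haa
    set m : N := (n a')⁻¹ * n a with hm
    have hmg : (m : G) * g = g * (m : G) := by
      rw [hm, Subgroup.coe_mul, Subgroup.coe_inv]
      have h2 : (n a : G) * g = (n a' : G) * g * (n a' : G)⁻¹ * (n a : G) := by
        rw [← h1]; group
      rw [mul_assoc, h2]
      group
    have hmprod : m = ∏ i, z i ^ (((a i : ℕ) : ℤ) - ((a' i : ℕ) : ℤ)) := by
      rw [hm]
      simp only [n]
      rw [← Finset.prod_inv_distrib, ← Finset.prod_mul_distrib]
      refine Finset.prod_congr rfl fun i _ => ?_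
      rw [← zpow_neg, ← zpow_add]
      congr 1
      ring
    funext j
    by_contra hne
    have hnd : ¬ (l : ℤ) ∣ (((a j : ℕ) : ℤ) - ((a' j : ℕ) : ℤ)) := by
      intro hd
      apply hne
      have h3 : ((a j : ℕ) : ℤ) - ((a' j : ℕ) : ℤ) = 0 := by
        apply Int.eq_zero_of_abs_lt_dvd hd
        rw [abs_lt]
        have := (a j).2
        have := (a' j).2
        constructor <;> omega
      apply Fin.ext
      omega
    -- `m` fixes `g • β j`
    have hmfix : (m : G) • (g • β j) = g • β j := by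
      have h4 : m ∈ (MulAction.stabilizer G (g • β j)).subgroupOf N := by
        rw [hmprod]
        refine Subgroup.prod_mem _ fun i _ => Subgroup.zpow_mem _ ?_ _
        rw [Subgroup.mem_subgroupOf]
        exact hg i j
      rw [Subgroup.mem_subgroupOf] at h4
      exact h4
    have hmfix2 : (m : G) • β j = β j := by
      rw [← mul_smul, hmg, mul_smul] at hmfix
      exact MulAction.injective g hmfix
    -- so a power of `x j` fixes `β j`
    have h5 : (z j ^ (((a j : ℕ) : ℤ) - ((a' j : ℕ) : ℤ))) ∈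
        (MulAction.stabilizer G (β j)).subgroupOf N := by
      have h6 : m ∈ (MulAction.stabilizer G (β j)).subgroupOf N := by
        rw [Subgroup.mem_subgroupOf]
        exact hmfix2
      rw [hmprod, ← Finset.mul_prod_erase Finset.univ _ (Finset.mem_univ j)] at h6
      refine (Subgroup.mul_mem_cancel_right _ ?_).1 h6
      refine Subgroup.prod_mem _ fun i hi => Subgroup.zpow_mem _ ?_ _
      rw [Subgroup.mem_subgroupOf]
      exact hfix i j (Finset.ne_of_mem_erase hi)
    have h7 : z j ∈ (MulAction.stabilizer G (β j)).subgroupOf N :=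
      mem_of_zpow_mem hl (Subtype.ext (hxl j)) _ h5 hnd
    rw [Subgroup.mem_subgroupOf] at h7
    exact hmove j h7
  have h1 := Nat.card_le_card_of_injective f hf
  rw [Nat.card_fun, Nat.card_fin, Nat.card_fin] at h1
  exact h1

end classes

end Pool.Agent.MP_0d9be2.H7.B3
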