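import Pool.Agent.Lib.MP_0d9be2_nt.Defs3
import Pool.Agent.Lib.MP_0d9be2_nt.H7.B3

/-!
# Part B3 of Theorem S: elements of the inertia group which move only one of the roots
-/

set_option autoImplicit false

open IsDedekindDomain Ideal
open scoped Pointwise NumberField

namespace Pool.Agent.MP_0d9be2.H7

theorem inert : Inert_S := by
  intro K₁ M _ _ _ _ _ _ l hl ζ hζ ι b c hb hfaith P i₀ hlP h1 h2 h3
  have hPm : P.asIdeal.IsMaximal := P.isMaximal
  obtain ⟨v, hv⟩ : ∃ v : HeightOneSpectrum (𝓞 M), v.asIdeal.LiesOver P.asIdeal := by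
    obtain ⟨Q, hQ, hQP⟩ := Ideal.exists_ideal_over_maximal_of_isIntegral (S := 𝓞 M) P.asIdeal
      (by
        rw [(RingHom.injective_iff_ker_eq_bot _).1
          (FaithfulSMul.algebraMap_injective (𝓞 K₁) (𝓞 M))]
        exact bot_le)
    have hQ0 : Q ≠ ⊥ := by
      rintro rfl
      apply P.ne_bot
      rw [← hQP]
      exact (RingHom.injective_iff_ker_eq_bot _).1
        (FaithfulSMul.algebraMap_injective (𝓞 K₁) (𝓞 M))
    exact ⟨⟨Q, hQ.isPrime, hQ0⟩, ⟨hQP.symm⟩⟩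
  have hfin : Finite (𝓞 K₁ ⧸ P.asIdeal) := inferInstance
  obtain ⟨n, hn, hn1⟩ := B3.exists_inertia_ne_one (A := 𝓞 K₁) (C := 𝓞 M) (N := Gal(M/K₁))
    hl.two_le v P.asIdeal P.ne_bot hv h1 h2 (hb i₀)
  have hmem : ∀ x : 𝓞 K₁, algebraMap (𝓞 K₁) (𝓞 M) x ∈ v.asIdeal ↔ x ∈ P.asIdeal := by
    intro x
    have : P.asIdeal = v.asIdeal.under (𝓞 K₁) := hv.over
    rw [this]
    exact Iff.rfl
  have hfix : ∀ i, i ≠ i₀ → n • b i = b i := by
    intro i hi
    refine B3.inertia_fix (A := 𝓞 K₁) (C := 𝓞 M) hl (ζ := ζ) ?_ v ?_ (hb i) ?_ n hn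
    · exact hζ.map_of_injective (FaithfulSMul.algebraMap_injective (𝓞 K₁) (𝓞 M))
    · intro h
      apply hlP
      rw [← hmem]
      rwa [map_natCast]
    · rw [hmem]
      exact h3 i hi
  refine ⟨n, ?_, hfix⟩
  intro h
  apply hn1
  apply hfaith
  intro i
  by_cases hi : i = i₀
  · rw [hi]; exact h
  · exact hfix i hi

end Pool.Agent.MP_0d9be2.H7
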