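import Mathlib

/-!
Every nonzero prime ideal of the ring of integers of an algebraic closure of the rationals is the
set of integral elements of absolute value less than 1, for some nontrivial absolute value.
-/

open scoped NumberField Pointwise

namespace Pool.Agent.MP_0d9be2.H7.Bridge

theorem norm_le_one {p : ℕ} [Fact p.Prime] (x : PadicAlgCl p) (h : IsIntegral ℤ x) :
    ‖x‖ ≤ 1 := by
  have h1 : IsIntegral (Valued.v (R := PadicAlgCl p) (Γ₀ := NNReal)).integer x := h.tower_top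
  have h2 := (Valuation.integer.integers
    (Valued.v (R := PadicAlgCl p) (Γ₀ := NNReal))).mem_of_integral h1
  rw [Valuation.mem_integer_iff, PadicAlgCl.valuation_def] at h2
  exact_mod_cast h2

theorem norm_p_lt {p : ℕ} [hp : Fact p.Prime] : ‖(p : PadicAlgCl p)‖ < 1 := by
  have h := PadicAlgCl.valuation_p p
  rw [PadicAlgCl.valuation_def] at h
  have h2 : ‖(p : PadicAlgCl p)‖ = 1 / (p : ℝ) := by
    have := congrArg (fun x : NNReal => (x : ℝ)) h
    simpa using this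
  rw [h2, div_lt_one (by exact_mod_cast hp.out.pos)]
  exact_mod_cast hp.out.one_lt

theorem exists_prime (I : Ideal ℤ) [hI : I.IsPrime] (h : I ≠ ⊥) :
    ∃ p : ℕ, p.Prime ∧ I = Ideal.span {(p : ℤ)} := by
  obtain ⟨n, hn⟩ := (IsPrincipalIdealRing.principal I).principal
  have hn0 : n ≠ 0 := by
    rintro rfl
    apply h
    rw [hn]
    simp
  have hnp : Prime n := by
    rw [← Ideal.span_singleton_prime hn0]
    have : I = Ideal.span {n} := hn
    rw [← this]; exact hI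
  refine ⟨n.natAbs, Int.prime_iff_natAbs_prime.1 hnp, ?_⟩
  have : I = Ideal.span {n} := hn
  rw [this]
  rw [Int.span_natAbs]

section

variable {Ω : Type*} [Field Ω] [CharZero Ω]

theorem coe_smul (g : Ω ≃ₐ[ℚ] Ω) (b : 𝓞 Ω) : ((g • b : 𝓞 Ω) : Ω) = g (b : Ω) := rfl

variable [Algebra.IsAlgebraic ℚ Ω] [IsAlgClosed Ω]

theorem isInvariant : Algebra.IsInvariant ℤ (𝓞 Ω) (Ω ≃ₐ[ℚ] Ω) := by
  have hc : IsAlgClosure ℚ Ω := ⟨inferInstance, inferInstance⟩
  have hn : Normal ℚ Ω := IsAlgClosure.normal ℚ Ω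
  have hg : IsGalois ℚ Ω := ⟨⟩
  refine ⟨fun b hb => ?_⟩
  have h1 : (b : Ω) ∈ Set.range (algebraMap ℚ Ω) := by
    rw [InfiniteGalois.mem_range_algebraMap_iff_fixed]
    intro f
    have := hb f
    rw [← coe_smul, this]
  obtain ⟨q, hq⟩ := h1
  have h2 : IsIntegral ℤ q := by
    have : IsIntegral ℤ (algebraMap ℚ Ω q) := by rw [hq]; exact b.2
    exact (isIntegral_algebraMap_iff (algebraMap ℚ Ω).injective).1 this
  obtain ⟨z, hz⟩ := (IsIntegrallyClosed.isIntegral_iff (R := ℤ)).1 h2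
  refine ⟨z, ?_⟩
  apply Subtype.ext
  change algebraMap (𝓞 Ω) Ω (algebraMap ℤ (𝓞 Ω) z) = (b : Ω)
  rw [← IsScalarTower.algebraMap_apply, IsScalarTower.algebraMap_apply ℤ ℚ Ω, hz, hq]

theorem exists_smul (P Q : Ideal (𝓞 Ω)) [P.IsPrime] [Q.IsPrime]
    (h : P.under ℤ = Q.under ℤ) : ∃ g : Ω ≃ₐ[ℚ] Ω, Q = g • P := by
  have hc : IsAlgClosure ℚ Ω := ⟨inferInstance, inferInstance⟩
  have hn : Normal ℚ Ω := IsAlgClosure.normal ℚ Ω
  have hg : IsGalois ℚ Ω := ⟨⟩
  let τ : TopologicalSpace (𝓞 Ω) := ⊥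
  have hd : DiscreteTopology (𝓞 Ω) := ⟨rfl⟩
  have hs : ContinuousSMul (Ω ≃ₐ[ℚ] Ω) (𝓞 Ω) := by
    rw [continuousSMul_iff_stabilizer_isOpen]
    intro x
    have h1 := stabilizer_isOpen_of_isIntegral (K := ℚ) (x : Ω)
    have h2 : (MulAction.stabilizer (Ω ≃ₐ[ℚ] Ω) x) =
        (MulAction.stabilizer (Ω ≃ₐ[ℚ] Ω) (x : Ω)) := by
      ext g
      rw [MulAction.mem_stabilizer_iff, MulAction.mem_stabilizer_iff]
      constructor
      · intro h
        have := congrArg (fun y : 𝓞 Ω => (y : Ω)) h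
        exact this
      · intro h
        apply Subtype.ext
        exact h
    rw [h2]
    exact h1
  have hi := isInvariant (Ω := Ω)
  exact Algebra.IsInvariant.exists_smul_of_under_eq_of_profinite (A := ℤ) P Q h

end

/-- Every nonzero prime ideal of the ring of integers of an algebraic closure of the rationals
comes from a nontrivial absolute value. -/
theorem bridge (Ω : Type*) [Field Ω] [CharZero Ω] [Algebra.IsAlgebraic ℚ Ω] [IsAlgClosed Ω]
    (P : Ideal (𝓞 Ω)) [hPp : P.IsPrime] (hP : P ≠ ⊥) :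
    ∃ v : AbsoluteValue Ω ℝ, v.IsNontrivial ∧ IsNonarchimedean v ∧
      (∀ x : 𝓞 Ω, v (x : Ω) ≤ 1) ∧ ∀ x : 𝓞 Ω, v (x : Ω) < 1 ↔ x ∈ P := by
  -- the prime number under P
  obtain ⟨x, hx, hx0⟩ := Submodule.exists_mem_ne_zero_of_ne_bot hP
  have hint : IsIntegral ℤ x := NumberField.RingOfIntegers.isIntegral x
  have hu0 : P.under ℤ ≠ ⊥ := Ideal.comap_ne_bot_of_integral_mem hx0 hx hint
  have hup : (P.under ℤ).IsPrime := inferInstance
  obtain ⟨p, hp, hpu⟩ := exists_prime (P.under ℤ) hu0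
  have hf : Fact p.Prime := ⟨hp⟩
  let ι : Ω →ₐ[ℚ] PadicAlgCl p := IsAlgClosed.lift
  let v0 : AbsoluteValue Ω ℝ :=
    (NormedField.toAbsoluteValue (PadicAlgCl p)).comp (f := (ι : Ω →+* PadicAlgCl p))
      (ι : Ω →+* PadicAlgCl p).injective
  have hv0 : ∀ x, v0 x = ‖ι x‖ := fun x => rfl
  have hle : ∀ x : 𝓞 Ω, v0 (x : Ω) ≤ 1 := by
    intro x
    rw [hv0]
    apply norm_le_one
    have : IsIntegral ℤ (x : Ω) := x.2
    exact this.map (ι.restrictScalars ℤ)
  have hna : IsNonarchimedean v0 := by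
    intro x y
    rw [hv0, hv0, hv0, map_add]
    exact PadicAlgCl.isNonarchimedean p _ _
  have hmul : ∀ a b : 𝓞 Ω, v0 ((a * b : 𝓞 Ω) : Ω) = v0 (a : Ω) * v0 (b : Ω) :=
    fun a b => v0.map_mul _ _
  let P0 : Ideal (𝓞 Ω) :=
    { carrier := {x | v0 (x : Ω) < 1}
      add_mem' := by
        intro a b ha hb
        exact lt_of_le_of_lt (hna _ _) (max_lt ha hb)
      zero_mem' := by
        change v0 (0 : Ω) < 1
        rw [map_zero]; norm_num
      smul_mem' := by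
        intro c a ha
        change v0 ((c * a : 𝓞 Ω) : Ω) < 1
        rw [hmul]
        exact mul_lt_one_of_nonneg_of_lt_one_right (hle c) (v0.nonneg _) ha }
  have hmem : ∀ x, x ∈ P0 ↔ v0 (x : Ω) < 1 := fun x => Iff.rfl
  have hP0 : P0.IsPrime := by
    refine ⟨?_, ?_⟩
    · intro h
      have : (1 : 𝓞 Ω) ∈ P0 := by rw [h]; trivial
      rw [hmem] at this
      change v0 (1 : Ω) < 1 at this
      rw [map_one] at this
      exact lt_irrefl _ this
    · intro a b hab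
      rw [hmem, hmul] at hab
      rw [hmem, hmem]
      by_contra hcon
      push Not at hcon
      have h1 := le_antisymm (hle a) hcon.1
      have h2 := le_antisymm (hle b) hcon.2
      rw [h1, h2] at hab
      norm_num at hab
  have hunder : P0.under ℤ = P.under ℤ := by
    have hne : Ideal.span {(p : ℤ)} ≠ ⊥ := by
      rw [← hpu]; exact hu0
    have hmax : (Ideal.span {(p : ℤ)}).IsMaximal := by
      have : (Ideal.span {(p : ℤ)}).IsPrime := by rw [← hpu]; exact hup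
      exact this.isMaximal hne
    rw [hpu]
    symm
    have hne2 : P0.under ℤ ≠ ⊤ := by
      have : (P0.under ℤ).IsPrime := inferInstance
      exact this.ne_top
    apply hmax.eq_of_le hne2
    rw [Ideal.span_singleton_le_iff_mem]
    change algebraMap ℤ (𝓞 Ω) (p : ℤ) ∈ P0
    rw [hmem, hv0]
    have h3 : ι ((algebraMap ℤ (𝓞 Ω) (p : ℤ) : 𝓞 Ω) : Ω) = (p : PadicAlgCl p) := by
      have : ((algebraMap ℤ (𝓞 Ω) (p : ℤ) : 𝓞 Ω) : Ω) = (p : Ω) := by simp
      rw [this]; simp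
    rw [h3]
    exact norm_p_lt
  obtain ⟨g, hg⟩ := exists_smul P0 P hunder
  have hlt : ∀ x : 𝓞 Ω, v0 ((g⁻¹ : Ω ≃ₐ[ℚ] Ω) (x : Ω)) < 1 ↔ x ∈ P := by
    intro x
    rw [hg, Ideal.mem_pointwise_smul_iff_inv_smul_mem, hmem, coe_smul]
  refine ⟨v0.comp (f := ((g⁻¹ : Ω ≃ₐ[ℚ] Ω) : Ω →+* Ω)) (g⁻¹ : Ω ≃ₐ[ℚ] Ω).injective, ?_, ?_, ?_, ?_⟩
  · refine ⟨(x : Ω), ?_, ?_⟩
    · intro h
      exact hx0 (NumberField.RingOfIntegers.ext h)
    · have := (hlt x).2 hx
      exact ne_of_lt this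
  · intro a b
    change v0 ((g⁻¹ : Ω ≃ₐ[ℚ] Ω) (a + b)) ≤ _
    rw [map_add]
    exact hna _ _
  · intro x
    exact hle (g⁻¹ • x)
  · exact hlt

end Pool.Agent.MP_0d9be2.H7.Bridge
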