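import Pool.Agent.Lib.MP_0d9be2_nt.H7.Bridge

/-!
An automorphism which stabilises the prime ideal of an absolute value in the ring of integers
preserves the order given by the absolute value.
-/

open scoped NumberField Pointwise

namespace Pool.Agent.MP_0d9be2.H7.Bridge

theorem dichotomy (A : Type*) [CommRing A] [IsDedekindDomain A] (P : Ideal A) [hP : P.IsPrime]
    (a c : A) : ∃ e s : A, s ∉ P ∧ (a * e = c * s ∨ c * e = a * s) := by
  by_cases h0 : P = ⊥
  · by_cases ha : a = 0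
    · refine ⟨0, 1, ?_, Or.inr (by rw [ha]; ring)⟩
      exact fun h => hP.ne_top ((Ideal.eq_top_iff_one P).2 h)
    · refine ⟨c, a, ?_, Or.inl (mul_comm _ _)⟩
      rw [h0]
      simpa using ha
  · have hd : IsDiscreteValuationRing (Localization.AtPrime P) :=
      IsLocalization.AtPrime.isDiscreteValuationRing_of_dedekind_domain A h0
        (Localization.AtPrime P)
    have hinj : Function.Injective (algebraMap A (Localization.AtPrime P)) :=
      IsLocalization.injective _ (Ideal.primeCompl_le_nonZeroDivisors P)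
    obtain ⟨d, hd⟩ := ValuationRing.cond (algebraMap A (Localization.AtPrime P) a)
      (algebraMap A (Localization.AtPrime P) c)
    obtain ⟨e, s, rfl⟩ := IsLocalization.exists_mk'_eq P.primeCompl d
    refine ⟨e, s, s.2, ?_⟩
    rcases hd with hd | hd
    · left
      apply hinj
      rw [map_mul, map_mul, ← hd, mul_assoc, IsLocalization.mk'_spec]
    · right
      apply hinj
      rw [map_mul, map_mul, ← hd, mul_assoc, IsLocalization.mk'_spec]

section

variable {Ω : Type*} [Field Ω] [CharZero Ω] [Algebra.IsAlgebraic ℚ Ω]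

/-- Two elements of the ring of integers lie in a common Dedekind domain. -/
theorem dichotomy' (P : Ideal (𝓞 Ω)) [hP : P.IsPrime] (a c : 𝓞 Ω) :
    ∃ e s : 𝓞 Ω, s ∉ P ∧ (a * e = c * s ∨ c * e = a * s) := by
  let L : IntermediateField ℚ Ω := IntermediateField.adjoin ℚ {(a : Ω), (c : Ω)}
  have hfin : FiniteDimensional ℚ L := by
    apply IntermediateField.finiteDimensional_adjoin
    intro x _
    exact (Algebra.IsAlgebraic.isAlgebraic (R := ℚ) x).isIntegral
  have hnf : NumberField L := { to_charZero := inferInstance, to_finiteDimensional := hfin }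
  let φ : 𝓞 L →+* 𝓞 Ω := NumberField.RingOfIntegers.mapRingHom (algebraMap L Ω)
  have hφ : ∀ x : 𝓞 L, ((φ x : 𝓞 Ω) : Ω) = ((x : L) : Ω) := fun x => rfl
  have haL : (a : Ω) ∈ L := IntermediateField.subset_adjoin _ _ (by simp)
  have hcL : (c : Ω) ∈ L := IntermediateField.subset_adjoin _ _ (by simp)
  have key : ∀ x : 𝓞 Ω, (x : Ω) ∈ L → ∃ y : 𝓞 L, φ y = x := by
    intro x hx
    have h1 : IsIntegral ℤ (⟨(x : Ω), hx⟩ : L) := by
      have h2 : IsIntegral ℤ (algebraMap L Ω (⟨(x : Ω), hx⟩ : L)) := x.2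
      exact (isIntegral_algebraMap_iff (algebraMap L Ω).injective).1 h2
    refine ⟨⟨⟨(x : Ω), hx⟩, h1⟩, ?_⟩
    apply NumberField.RingOfIntegers.ext
    rfl
  obtain ⟨a', ha'⟩ := key a haL
  obtain ⟨c', hc'⟩ := key c hcL
  obtain ⟨e, s, hs, h⟩ := dichotomy (𝓞 L) (P.comap φ) a' c'
  refine ⟨φ e, φ s, hs, ?_⟩
  rw [← ha', ← hc']
  rcases h with h | h
  · left; rw [← map_mul, h, map_mul]
  · right; rw [← map_mul, h, map_mul]

/-- An automorphism which stabilises the prime ideal of an absolute value preserves the order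
given by the absolute value. -/
theorem lt_iff (v : AbsoluteValue Ω ℝ) (hle : ∀ x : 𝓞 Ω, v (x : Ω) ≤ 1)
    (P : Ideal (𝓞 Ω)) [hP : P.IsPrime] (hvP : ∀ x : 𝓞 Ω, v (x : Ω) < 1 ↔ x ∈ P)
    (σ : Ω ≃+* Ω) (hσ : ∀ x : 𝓞 Ω, v (σ (x : Ω)) < 1 ↔ x ∈ P) (x y : Ω) :
    v x < v y ↔ v (σ x) < v (σ y) := by
  have hleσ : ∀ x : 𝓞 Ω, v (σ (x : Ω)) ≤ 1 := by
    intro x
    have h1 : IsIntegral ℤ (x : Ω) := x.2
    have h2 : IsIntegral ℤ (σ (x : Ω)) := h1.map (σ : Ω →+* Ω).toIntAlgHom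
    exact hle ⟨_, h2⟩
  have hone : ∀ s : 𝓞 Ω, s ∉ P → v (s : Ω) = 1 := by
    intro s hs
    exact le_antisymm (hle s) (not_lt.1 (fun h => hs ((hvP s).1 h)))
  have honeσ : ∀ s : 𝓞 Ω, s ∉ P → v (σ (s : Ω)) = 1 := by
    intro s hs
    exact le_antisymm (hleσ s) (not_lt.1 (fun h => hs ((hσ s).1 h)))
  -- integral elements
  have key : ∀ a c : 𝓞 Ω, c ≠ 0 → (v (a : Ω) < v (c : Ω) ↔ v (σ (a : Ω)) < v (σ (c : Ω))) := by
    intro a c hc
    have hc0 : (c : Ω) ≠ 0 := fun h => hc (NumberField.RingOfIntegers.ext h)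
    have hc1 : 0 < v (c : Ω) := v.pos hc0
    have hc2 : 0 < v (σ (c : Ω)) := v.pos (by simpa using hc0)
    obtain ⟨e, s, hs, h | h⟩ := dichotomy' P a c
    · have h1 : v (a : Ω) * v (e : Ω) = v (c : Ω) := by
        have h2 : v ((a * e : 𝓞 Ω) : Ω) = v ((c * s : 𝓞 Ω) : Ω) := by rw [h]
        have h3 : v ((a : Ω) * (e : Ω)) = v ((c : Ω) * (s : Ω)) := h2
        rw [map_mul, map_mul, hone s hs, mul_one] at h3
        exact h3
      have h1' : v (σ (a : Ω)) * v (σ (e : Ω)) = v (σ (c : Ω)) := by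
        have h2 : v (σ ((a * e : 𝓞 Ω) : Ω)) = v (σ ((c * s : 𝓞 Ω) : Ω)) := by rw [h]
        have h3 : v (σ ((a : Ω) * (e : Ω))) = v (σ ((c : Ω) * (s : Ω))) := h2
        rw [map_mul, map_mul, map_mul, map_mul, honeσ s hs, mul_one] at h3
        exact h3
      constructor
      · intro hlt
        exfalso
        have := mul_le_mul_of_nonneg_left (hle e) (v.nonneg (a : Ω))
        linarith
      · intro hlt
        exfalso
        have := mul_le_mul_of_nonneg_left (hleσ e) (v.nonneg (σ (a : Ω)))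
        linarith
    · have h1 : v (c : Ω) * v (e : Ω) = v (a : Ω) := by
        have h2 : v ((c * e : 𝓞 Ω) : Ω) = v ((a * s : 𝓞 Ω) : Ω) := by rw [h]
        have h3 : v ((c : Ω) * (e : Ω)) = v ((a : Ω) * (s : Ω)) := h2
        rw [map_mul, map_mul, hone s hs, mul_one] at h3
        exact h3
      have h1' : v (σ (c : Ω)) * v (σ (e : Ω)) = v (σ (a : Ω)) := by
        have h2 : v (σ ((c * e : 𝓞 Ω) : Ω)) = v (σ ((a * s : 𝓞 Ω) : Ω)) := by rw [h]
        have h3 : v (σ ((c : Ω) * (e : Ω))) = v (σ ((a : Ω) * (s : Ω))) := h2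
        rw [map_mul, map_mul, map_mul, map_mul, honeσ s hs, mul_one] at h3
        exact h3
      rw [← h1, ← h1', mul_lt_iff_lt_one_right hc1, mul_lt_iff_lt_one_right hc2, hvP, hσ]
  -- fractions
  have key2 : ∀ z : Ω, v z < 1 ↔ v (σ z) < 1 := by
    intro z
    have hz0 : IsAlgebraic ℤ z :=
      (IsFractionRing.isAlgebraic_iff ℤ ℚ Ω).2 (Algebra.IsAlgebraic.isAlgebraic (R := ℚ) z)
    obtain ⟨n, hn, hz⟩ := hz0.exists_integral_multiple
    have hn0 : (n : Ω) ≠ 0 := by exact_mod_cast hn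
    obtain ⟨a, ha⟩ : ∃ a : 𝓞 Ω, (a : Ω) = n • z := ⟨⟨n • z, hz⟩, rfl⟩
    have hnz : (n : Ω) * z = (a : Ω) := by
      rw [ha, zsmul_eq_mul]
    have hnc : (((n : ℤ) : 𝓞 Ω) : Ω) = (n : Ω) := by simp
    have h1 := key a (n : 𝓞 Ω) (by exact_mod_cast hn)
    rw [hnc, ← hnz, map_mul, map_mul, map_mul] at h1
    have h2 : 0 < v (n : Ω) := v.pos hn0
    have h3 : 0 < v (σ (n : Ω)) := v.pos (by simpa using hn)
    rwa [mul_lt_iff_lt_one_right h2, mul_lt_iff_lt_one_right h3] at h1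
  by_cases hy : y = 0
  · rw [hy, map_zero, map_zero, map_zero]
    have h1 := v.nonneg x
    have h2 := v.nonneg (σ x)
    constructor
    · intro h; linarith
    · intro h; linarith
  · have h1 := key2 (x / y)
    have hy1 : 0 < v y := v.pos hy
    have hy2 : 0 < v (σ y) := v.pos (by simpa using hy)
    rwa [map_div₀, map_div₀, map_div₀, div_lt_one hy1, div_lt_one hy2] at h1

end

end Pool.Agent.MP_0d9be2.H7.Bridge
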