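import Mathlib

/-!
# Lines through a point of a Weierstrass curve
-/

set_option autoImplicit false

namespace Pool.Agent.MP_0d9be2.H7

open WeierstrassCurve WeierstrassCurve.Affine

section field

variable {F : Type} [Field F] (W : WeierstrassCurve F)

/-- First coefficient of the residual quadratic of the line of slope `t` through `(x₀, y₀)`. -/
def rb (x₀ t : F) : F := x₀ + W.a₂ - t ^ 2 - W.a₁ * t

/-- Second coefficient of the residual quadratic of the line of slope `t` through `(x₀, y₀)`. -/
def rc (x₀ y₀ t : F) : F :=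
  x₀ * rb W x₀ t - (2 * t * (y₀ - t * x₀) + W.a₁ * (y₀ - t * x₀) + W.a₃ * t - W.a₄)

variable {W}

theorem line_equation_iff {x₀ y₀ : F} (h : W.toAffine.Equation x₀ y₀) (t x : F) :
    W.toAffine.Equation x (y₀ + t * (x - x₀)) ↔
      (x - x₀) * (x ^ 2 + rb W x₀ t * x + rc W x₀ y₀ t) = 0 := by
  rw [equation_iff] at h ⊢
  unfold rc rb
  constructor
  · intro h1
    linear_combination h - h1
  · intro h1
    linear_combination h - h1

/-- The residual quadratic does not vanish at `x₀` for two different slopes. -/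
theorem resid_at_base (x₀ y₀ t : F) :
    x₀ ^ 2 + rb W x₀ t * x₀ + rc W x₀ y₀ t =
      (3 * x₀ ^ 2 + 2 * W.a₂ * x₀ + W.a₄ - W.a₁ * y₀) - t * (2 * y₀ + W.a₁ * x₀ + W.a₃) := by
  unfold rc rb
  ring

/-- The two residual points add up to `P`. -/
theorem add_residual [DecidableEq F] {x₀ yP : F} (hP : W.toAffine.Nonsingular x₀ yP) (t r₁ r₂ : F)
    (hr : r₁ ≠ r₂) (hs : r₁ + r₂ = - rb W x₀ t)
    (h₁ : W.toAffine.Nonsingular r₁ (W.toAffine.negY x₀ yP + t * (r₁ - x₀)))
    (h₂ : W.toAffine.Nonsingular r₂ (W.toAffine.negY x₀ yP + t * (r₂ - x₀))) :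
    (Point.some r₁ _ h₁ + Point.some r₂ _ h₂ : W.toAffine.Point) = Point.some x₀ yP hP := by
  have hsl : W.toAffine.slope r₁ r₂ (W.toAffine.negY x₀ yP + t * (r₁ - x₀))
      (W.toAffine.negY x₀ yP + t * (r₂ - x₀)) = t := by
    rw [slope_of_X_ne hr, div_eq_iff (sub_ne_zero.2 hr)]
    ring
  rw [Point.add_of_X_ne hr]
  have hx : W.toAffine.addX r₁ r₂ (W.toAffine.slope r₁ r₂ (W.toAffine.negY x₀ yP + t * (r₁ - x₀))
      (W.toAffine.negY x₀ yP + t * (r₂ - x₀))) = x₀ := by
    rw [hsl]
    unfold rb at hs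
    simp only [addX]
    linear_combination -hs
  have hy : W.toAffine.addY r₁ r₂ (W.toAffine.negY x₀ yP + t * (r₁ - x₀))
      (W.toAffine.slope r₁ r₂ (W.toAffine.negY x₀ yP + t * (r₁ - x₀))
      (W.toAffine.negY x₀ yP + t * (r₂ - x₀))) = yP := by
    unfold addY negAddY
    rw [hx, hsl]
    simp only [negY]
    ring
  simp only [hx, hy]

/-- A double residual point `Q` satisfies `Q + Q = P`. -/
theorem add_residual_self [DecidableEq F] {x₀ yP : F} (hP : W.toAffine.Nonsingular x₀ yP) (t r : F)
    (hs : r + r = - rb W x₀ t) (hp : r * r = rc W x₀ (W.toAffine.negY x₀ yP) t)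
    (h : W.toAffine.Nonsingular r (W.toAffine.negY x₀ yP + t * (r - x₀))) :
    (Point.some r _ h + Point.some r _ h : W.toAffine.Point) = Point.some x₀ yP hP := by
  set y₀ := W.toAffine.negY x₀ yP with hy₀
  set y := y₀ + t * (r - x₀) with hy
  -- the derivative relation
  have hd : t * (y - W.toAffine.negY r y) = 3 * r ^ 2 + 2 * W.a₂ * r + W.a₄ - W.a₁ * y := by
    unfold rc rb at hp
    unfold rb at hs
    simp only [negY, hy]
    linear_combination (x₀ - 2 * r) * hs + hp
  have hne : y ≠ W.toAffine.negY r y := by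
    intro heq
    have h1 := hd
    rw [← heq, sub_self, mul_zero] at h1
    have h2 := h.2
    rw [nonsingular_iff'] at h
    rcases h.2 with h3 | h3
    · apply h3
      linear_combination h1
    · apply h3
      simp only [negY] at heq
      linear_combination heq
  have hsl : W.toAffine.slope r r y y = t := by
    rw [slope_of_Y_ne rfl hne, div_eq_iff (sub_ne_zero.2 hne)]
    linear_combination -hd
  rw [Point.add_self_of_Y_ne hne]
  have hx : W.toAffine.addX r r (W.toAffine.slope r r y y) = x₀ := by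
    rw [hsl]
    unfold rb at hs
    simp only [addX]
    linear_combination -hs
  have hyy : W.toAffine.addY r r y (W.toAffine.slope r r y y) = yP := by
    unfold addY negAddY
    rw [hx, hsl]
    simp only [negY, hy, hy₀]
    ring
  simp only [hx, hyy]

end field

end Pool.Agent.MP_0d9be2.H7
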