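import Pool.Agent.Lib.MP_0d9be2_nt.H7.Quad
import Pool.Agent.Lib.MP_0d9be2_nt.H7.Line

/-!
# Counting: the two kinds of points over a quadratic extension
-/

set_option autoImplicit false

namespace Pool.Agent.MP_0d9be2.H7

open WeierstrassCurve WeierstrassCurve.Affine

variable {k l : Type} [Field k] [Finite k] [Field l] [Algebra k l]

/-- The number of affine points of a Weierstrass curve over a finite field. -/
noncomputable def aff {F : Type} [Field F] (W : WeierstrassCurve F) : ℕ :=
  Nat.card {xy : F × F // W.toAffine.Equation xy.1 xy.2}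

theorem ncard_quad (hl : Module.finrank k l = 2) (σ : l ≃ₐ[k] l)
    (hfix : ∀ x, σ x = x → ∃ a : k, algebraMap k l a = x) (m n : k) :
    Set.ncard {y : l | (y ^ 2 + algebraMap k l m * y + algebraMap k l n = 0) ∧
        σ y = - algebraMap k l m - y} +
      Set.ncard {y : k | y ^ 2 + m * y + n = 0} = 2 := by
  obtain ⟨y, hy⟩ := quad_root hl m n
  have hroots : ∀ z : l, z ^ 2 + algebraMap k l m * z + algebraMap k l n = 0 →
      z = y ∨ z = - algebraMap k l m - y := by
    intro z hz
    have h1 : (z - y) * (z - (- algebraMap k l m - y)) = 0 := by linear_combination hz - hy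
    rcases mul_eq_zero.1 h1 with h | h
    · left; exact sub_eq_zero.1 h
    · right; exact sub_eq_zero.1 h
  have hσroot : σ y = y ∨ σ y = - algebraMap k l m - y := by
    apply hroots
    have h1 := congrArg σ hy
    simpa using h1
  by_cases hσ : σ y = y
  · obtain ⟨a, rfl⟩ := hfix y hσ
    have ha : a ^ 2 + m * a + n = 0 := by
      apply (algebraMap k l).injective
      rw [map_add, map_add, map_mul, map_pow, map_zero]
      exact hy
    have hk : {y : k | y ^ 2 + m * y + n = 0} = {a, -m - a} := by
      ext z
      simp only [Set.mem_ofPred_eq, Set.mem_insert_iff, Set.mem_singleton_iff]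
      constructor
      · intro hz
        have h1 : (z - a) * (z - (-m - a)) = 0 := by linear_combination hz - ha
        rcases mul_eq_zero.1 h1 with h | h
        · left; exact sub_eq_zero.1 h
        · right; exact sub_eq_zero.1 h
      · rintro (rfl | rfl)
        · exact ha
        · linear_combination ha
    by_cases hd : a = -m - a
    · have hk' : {y : k | y ^ 2 + m * y + n = 0} = {a} := by
        rw [hk, ← hd, Set.pair_eq_singleton]
      have hl' : {y : l | (y ^ 2 + algebraMap k l m * y + algebraMap k l n = 0) ∧
          σ y = - algebraMap k l m - y} = {algebraMap k l a} := by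
        ext z
        simp only [Set.mem_ofPred_eq, Set.mem_singleton_iff]
        have hd' : algebraMap k l a = - algebraMap k l m - algebraMap k l a := by
          rw [← map_neg, ← map_sub, ← hd]
        constructor
        · rintro ⟨hz, -⟩
          rcases hroots z hz with h | h
          · exact h
          · rw [h, ← hd']
        · rintro rfl
          exact ⟨hy, by rw [hσ, ← hd']⟩
      rw [hk', hl', Set.ncard_singleton, Set.ncard_singleton]
    · have hl' : {y : l | (y ^ 2 + algebraMap k l m * y + algebraMap k l n = 0) ∧
          σ y = - algebraMap k l m - y} = ∅ := by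
        ext z
        simp only [Set.mem_ofPred_eq, Set.mem_empty_iff_false, iff_false, not_and]
        intro hz hz2
        apply hd
        apply (algebraMap k l).injective
        rw [map_sub, map_neg]
        rcases hroots z hz with h | h
        · rw [h, hσ] at hz2
          exact hz2
        · rw [h, map_sub, map_neg, AlgEquiv.commutes, hσ] at hz2
          linear_combination -hz2
      rw [hl', Set.ncard_empty, hk, Set.ncard_pair hd]
  · have hσ' : σ y = - algebraMap k l m - y := hσroot.resolve_left hσ
    have hk : {y : k | y ^ 2 + m * y + n = 0} = ∅ := by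
      ext z
      simp only [Set.mem_ofPred_eq, Set.mem_empty_iff_false, iff_false]
      intro hz
      have hz' : (algebraMap k l z) ^ 2 + algebraMap k l m * (algebraMap k l z)
          + algebraMap k l n = 0 := by
        rw [← map_pow, ← map_mul, ← map_add, ← map_add, hz, map_zero]
      apply hσ
      rcases hroots _ hz' with h | h
      · rw [← h, AlgEquiv.commutes]
      · have h2 : y = algebraMap k l (-m - z) := by
          rw [map_sub, map_neg]
          linear_combination h
        rw [h2, AlgEquiv.commutes]
    have hl' : {y : l | (y ^ 2 + algebraMap k l m * y + algebraMap k l n = 0) ∧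
        σ y = - algebraMap k l m - y} = {y, - algebraMap k l m - y} := by
      ext z
      simp only [Set.mem_ofPred_eq, Set.mem_insert_iff, Set.mem_singleton_iff]
      constructor
      · rintro ⟨hz, -⟩
        exact hroots z hz
      · rintro (rfl | rfl)
        · exact ⟨hy, hσ'⟩
        · refine ⟨by linear_combination hy, ?_⟩
          rw [map_sub, map_neg, AlgEquiv.commutes, hσ']
    have hne : y ≠ - algebraMap k l m - y := by
      intro h
      exact hσ (by rw [hσ', ← h])
    rw [hk, hl', Set.ncard_empty, Set.ncard_pair hne]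

/-- Points over `l` that are anti-fixed by `σ`. -/
theorem card_anti (hl : Module.finrank k l = 2) (σ : l ≃ₐ[k] l)
    (hfix : ∀ x, σ x = x → ∃ a : k, algebraMap k l a = x) (W : WeierstrassCurve k) :
    Nat.card {xy : l × l // (W.map (algebraMap k l)).toAffine.Equation xy.1 xy.2 ∧
        (σ xy.1 = xy.1 ∧ σ xy.2 = (W.map (algebraMap k l)).toAffine.negY xy.1 xy.2)} +
      aff W = 2 * Nat.card k := by
  classical
  have hfin : Module.Finite k l := Module.finite_of_finrank_pos (by omega)
  have hfl : Finite l := Module.finite_of_finite k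
  have : Fintype k := Fintype.ofFinite k
  let B : k → Type := fun x => {y : l // (W.map (algebraMap k l)).toAffine.Equation
    (algebraMap k l x) y ∧ σ y = (W.map (algebraMap k l)).toAffine.negY (algebraMap k l x) y}
  let A : k → Type := fun x => {y : k // W.toAffine.Equation x y}
  have h1 : Nat.card {xy : l × l // (W.map (algebraMap k l)).toAffine.Equation xy.1 xy.2 ∧
        (σ xy.1 = xy.1 ∧ σ xy.2 = (W.map (algebraMap k l)).toAffine.negY xy.1 xy.2)} =
      ∑ x : k, Nat.card (B x) := by
    rw [← Nat.card_sigma]
    symm
    refine Nat.card_congr (Equiv.ofBijective (fun z => ⟨(algebraMap k l z.1, z.2.1),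
      z.2.2.1, AlgEquiv.commutes σ _, z.2.2.2⟩) ⟨?_, ?_⟩)
    · rintro ⟨x, y, hy⟩ ⟨x', y', hy'⟩ h
      simp only [Subtype.mk.injEq, Prod.mk.injEq] at h
      obtain ⟨hx, rfl⟩ := h
      obtain rfl := (algebraMap k l).injective hx
      rfl
    · rintro ⟨⟨x, y⟩, h, hx, hy⟩
      obtain ⟨a, rfl⟩ := hfix x hx
      exact ⟨⟨a, y, h, hy⟩, rfl⟩
  have h2 : aff W = ∑ x : k, Nat.card (A x) := by
    rw [← Nat.card_sigma]
    exact Nat.card_congr (Equiv.subtypeProdEquivSigmaSubtype
      (fun x y => W.toAffine.Equation x y))
  rw [h1, h2, ← Finset.sum_add_distrib]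
  have h3 : ∀ x : k, Nat.card (B x) + Nat.card (A x) = 2 := by
    intro x
    have h4 := ncard_quad hl σ hfix (W.a₁ * x + W.a₃)
      (-(x ^ 3 + W.a₂ * x ^ 2 + W.a₄ * x + W.a₆))
    rw [← h4]
    congr 1
    · rw [← Nat.card_coe_set_eq]
      refine Nat.card_congr (Equiv.subtypeEquivRight fun y => ?_)
      simp only [Set.mem_ofPred_eq, equation_iff, negY, WeierstrassCurve.map_a₁,
        WeierstrassCurve.map_a₂, WeierstrassCurve.map_a₃, WeierstrassCurve.map_a₄,
        WeierstrassCurve.map_a₆, map_add, map_mul, map_neg, map_pow]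
      constructor
      · rintro ⟨ha, hb⟩
        exact ⟨by linear_combination ha, by linear_combination hb⟩
      · rintro ⟨ha, hb⟩
        exact ⟨by linear_combination ha, by linear_combination hb⟩
    · rw [← Nat.card_coe_set_eq]
      refine Nat.card_congr (Equiv.subtypeEquivRight fun y => ?_)
      simp only [Set.mem_ofPred_eq, equation_iff]
      constructor
      · intro ha
        linear_combination ha
      · intro ha
        linear_combination ha
  rw [Finset.sum_congr rfl (fun x _ => h3 x), Finset.sum_const, Finset.card_univ, smul_eq_mul,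
    Fintype.card_eq_nat_card, mul_comm]

/-- Points over `l` that are fixed by `σ`. -/
theorem card_fix (σ : l ≃ₐ[k] l)
    (hfix : ∀ x, σ x = x → ∃ a : k, algebraMap k l a = x) (W : WeierstrassCurve k) :
    Nat.card {xy : l × l // (W.map (algebraMap k l)).toAffine.Equation xy.1 xy.2 ∧
        (σ xy.1 = xy.1 ∧ σ xy.2 = xy.2)} = aff W := by
  symm
  refine Nat.card_congr (Equiv.ofBijective (fun z => ⟨(algebraMap k l z.1.1, algebraMap k l z.1.2),
    ?_, AlgEquiv.commutes σ _, AlgEquiv.commutes σ _⟩) ⟨?_, ?_⟩)
  · exact (W.toAffine.map_equation (algebraMap k l).injective _ _).2 z.2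
  · rintro ⟨⟨x, y⟩, h⟩ ⟨⟨x', y'⟩, h'⟩ heq
    simp only [Subtype.mk.injEq, Prod.mk.injEq] at heq ⊢
    exact ⟨(algebraMap k l).injective heq.1, (algebraMap k l).injective heq.2⟩
  · rintro ⟨⟨x, y⟩, h, hx, hy⟩
    obtain ⟨a, rfl⟩ := hfix x hx
    obtain ⟨b, rfl⟩ := hfix y hy
    refine ⟨⟨(a, b), ?_⟩, rfl⟩
    exact (W.toAffine.map_equation (algebraMap k l).injective _ _).1 h

end Pool.Agent.MP_0d9be2.H7
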