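import Mathlib

/-!
# Quadratic extensions of finite fields and the number of points of an elliptic curve

`k` a finite field with `q` elements, `l/k` of degree two, `W/k` an elliptic curve with `N` affine
points over `k` and `M` affine points over `l`. Then `M + 1 = (N + 1) (2 q + 1 - N)`.
-/

set_option autoImplicit false

namespace Pool.Agent.MP_0d9be2.H7

open Polynomial

variable {k l : Type} [Field k] [Finite k] [Field l] [Algebra k l]

/-- Every monic quadratic polynomial over `k` has a root in `l`. -/
theorem quad_root (hl : Module.finrank k l = 2) (m n : k) :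
    ∃ y : l, y ^ 2 + algebraMap k l m * y + algebraMap k l n = 0 := by
  classical
  have hfin : Module.Finite k l := Module.finite_of_finrank_pos (by omega)
  have hfl : Finite l := Module.finite_of_finite k
  have : Fintype l := Fintype.ofFinite l
  set f : k[X] := X ^ 2 + C m * X + C n with hf
  have hdeg : f.natDegree = 2 := by rw [hf]; compute_degree!
  have hmon : f.Monic := by rw [hf]; monicity!
  by_cases hr : f.roots = 0
  · have hirr : Irreducible f := by
      rw [hmon.irreducible_iff_roots_eq_zero_of_degree_le_three (by omega) (by omega)]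
      exact hr
    have hdvd : f ∣ X ^ (Nat.card k) ^ 2 - X := by
      rw [← hirr.natDegree_dvd_iff_dvd_X_pow_card_pow_sub_X, hdeg]
    have hsp : (X ^ (Nat.card k) ^ 2 - X : k[X]).map (algebraMap k l) |>.Splits := by
      have h := (FiniteField.isSplittingField_sub l k).splits
      rw [Fintype.card_eq_nat_card, Module.natCard_eq_pow_finrank (K := k) (V := l), hl] at h
      exact h
    have h1 : (f.map (algebraMap k l)).Splits := by
      refine hsp.of_dvd ?_ (Polynomial.map_dvd _ hdvd)
      rw [Polynomial.map_ne_zero_iff (algebraMap k l).injective]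
      exact FiniteField.X_pow_card_pow_sub_X_ne_zero k (by norm_num) Finite.one_lt_card
    obtain ⟨y, hy⟩ := h1.exists_eval_eq_zero (by
      rw [Polynomial.degree_map, Polynomial.degree_eq_natDegree hmon.ne_zero, hdeg]; norm_num)
    refine ⟨y, ?_⟩
    simpa [hf] using hy
  · obtain ⟨y, hy⟩ := Multiset.exists_mem_of_ne_zero hr
    have h2 := (Polynomial.mem_roots'.1 hy).2
    refine ⟨algebraMap k l y, ?_⟩
    rw [Polynomial.IsRoot.def] at h2
    have h3 : y ^ 2 + m * y + n = 0 := by simpa [hf] using h2
    rw [← map_pow, ← map_mul, ← map_add, ← map_add, h3, map_zero]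

/-- The nontrivial automorphism of `l/k`. -/
theorem exists_sigma (hl : Module.finrank k l = 2) :
    ∃ σ : l ≃ₐ[k] l, (∀ x, σ (σ x) = x) ∧ (∀ x, σ x = x → ∃ a : k, algebraMap k l a = x) := by
  classical
  have hfin : Module.Finite k l := Module.finite_of_finrank_pos (by omega)
  have hfl : Finite l := Module.finite_of_finite k
  have hgal : IsGalois k l := inferInstance
  have hcard : Nat.card (l ≃ₐ[k] l) = 2 := by
    rw [IsGalois.card_aut_eq_finrank, hl]
  obtain ⟨a, b, hab, huniv⟩ := Nat.card_eq_two_iff.1 hcard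
  obtain ⟨σ, hσ⟩ : ∃ σ : l ≃ₐ[k] l, ∀ g : l ≃ₐ[k] l, g = 1 ∨ g = σ := by
    have h1 : (1 : l ≃ₐ[k] l) ∈ ({a, b} : Set (l ≃ₐ[k] l)) := huniv ▸ Set.mem_univ _
    rcases h1 with h1 | h1
    · refine ⟨b, fun g => ?_⟩
      have h2 : g ∈ ({a, b} : Set (l ≃ₐ[k] l)) := huniv ▸ Set.mem_univ _
      rcases h2 with h2 | h2
      · left; rw [h2, ← h1]
      · right; exact h2
    · refine ⟨a, fun g => ?_⟩
      have h2 : g ∈ ({a, b} : Set (l ≃ₐ[k] l)) := huniv ▸ Set.mem_univ _
      rcases h2 with h2 | h2
      · right; exact h2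
      · left; rw [Set.mem_singleton_iff.1 h2, ← Set.mem_singleton_iff.1 h1]
  refine ⟨σ, fun x => ?_, fun x hx => ?_⟩
  · have h3 : σ * σ = 1 := by
      have h4 : orderOf σ ∣ 2 := hcard ▸ orderOf_dvd_natCard σ
      have h5 := orderOf_dvd_iff_pow_eq_one.1 h4
      rwa [pow_two] at h5
    have h6 := congrArg (fun g : l ≃ₐ[k] l => g x) h3
    simpa using h6
  · have h7 : x ∈ (⊥ : IntermediateField k l) := by
      rw [IsGalois.mem_bot_iff_fixed]
      intro g
      rcases hσ g with rfl | rfl
      · rfl
      · exact hx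
    rw [IntermediateField.mem_bot] at h7
    exact h7

end Pool.Agent.MP_0d9be2.H7
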